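import Mathlib

/-!
# Exchangeable families of 0/1 vectors

If the difference of the two half sums of an exchangeable family of 0/1 vectors of length `2 m`
is concentrated, then `m` is bounded.
-/

set_option autoImplicit false

namespace Pool.Agent.Helper60.KS

open Finset

/-- exchangeability of a finite family of vectors -/
def Exch {ι K : Type} (s : Finset ι) (ξ : ι → K → ℝ) : Prop :=
  ∀ (τ : Equiv.Perm K) (f : (K → ℝ) → ℝ),
    ∑ a ∈ s, f (fun k => ξ a (τ k)) = ∑ a ∈ s, f (ξ a)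

section

variable {ι K : Type} [DecidableEq K] {m : ℕ} (u v : Fin m → K)

/-- partial sums of the differences -/
def Zs (t : Finset (Fin m)) (x : K → ℝ) : ℝ := ∑ i ∈ t, (x (u i) - x (v i))

theorem flip {s : Finset ι} {ξ : ι → K → ℝ} (h : Exch s ξ) (hu : Function.Injective u)
    (hv : Function.Injective v) (huv : ∀ i j, u i ≠ v j) (t : Finset (Fin m)) (i : Fin m)
    (hi : i ∉ t) (g : ℝ → ℝ → ℝ) :
    ∑ a ∈ s, g (Zs u v t (ξ a)) (ξ a (u i) - ξ a (v i)) =
      ∑ a ∈ s, g (Zs u v t (ξ a)) (-(ξ a (u i) - ξ a (v i))) := by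
  rw [← h (Equiv.swap (u i) (v i)) (fun x => g (Zs u v t x) (x (u i) - x (v i)))]
  refine sum_congr rfl fun a _ => ?_
  have h1 : Zs u v t (fun k => ξ a (Equiv.swap (u i) (v i) k)) = Zs u v t (ξ a) := by
    unfold Zs
    refine sum_congr rfl fun j hj => ?_
    have hji : j ≠ i := fun h' => hi (h' ▸ hj)
    beta_reduce
    rw [Equiv.swap_apply_of_ne_of_ne (fun h' => hji (hu h')) (huv j i),
      Equiv.swap_apply_of_ne_of_ne (fun h' => huv i j h'.symm) (fun h' => hji (hv h'))]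
  simp only [h1, Equiv.swap_apply_left, Equiv.swap_apply_right]
  congr 1
  ring

theorem sq_le_one_of_mem {x : ℝ} {y : ℝ} (hx : x = 0 ∨ x = 1) (hy : y = 0 ∨ y = 1) :
    (x - y) ^ 2 ≤ 1 := by
  rcases hx with rfl | rfl <;> rcases hy with rfl | rfl <;> norm_num

theorem m2_eq {s : Finset ι} {ξ : ι → K → ℝ} (h : Exch s ξ) (hu : Function.Injective u)
    (hv : Function.Injective v) (huv : ∀ i j, u i ≠ v j) (t : Finset (Fin m)) :
    ∑ a ∈ s, (Zs u v t (ξ a)) ^ 2 = ∑ i ∈ t, ∑ a ∈ s, (ξ a (u i) - ξ a (v i)) ^ 2 := by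
  induction t using Finset.induction_on with
  | empty => simp [Zs]
  | insert i t hi ih =>
    have h1 := flip u v h hu hv huv t i hi (fun z e => z * e)
    have h2 : ∑ a ∈ s, Zs u v t (ξ a) * (ξ a (u i) - ξ a (v i)) = 0 := by
      have : ∑ a ∈ s, Zs u v t (ξ a) * -(ξ a (u i) - ξ a (v i)) =
        - ∑ a ∈ s, Zs u v t (ξ a) * (ξ a (u i) - ξ a (v i)) := by
        rw [← sum_neg_distrib]
        exact sum_congr rfl fun a _ => by ring
      rw [this] at h1
      linarith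
    rw [sum_insert hi, ← ih]
    have h3 : ∀ a, Zs u v (insert i t) (ξ a) = (ξ a (u i) - ξ a (v i)) + Zs u v t (ξ a) := by
      intro a
      unfold Zs
      rw [sum_insert hi]
    have h4 : ∑ a ∈ s, (Zs u v (insert i t) (ξ a)) ^ 2 =
        ∑ a ∈ s, (ξ a (u i) - ξ a (v i)) ^ 2 + ∑ a ∈ s, (Zs u v t (ξ a)) ^ 2 +
        2 * ∑ a ∈ s, Zs u v t (ξ a) * (ξ a (u i) - ξ a (v i)) := by
      rw [mul_sum, ← sum_add_distrib, ← sum_add_distrib]
      exact sum_congr rfl fun a _ => by rw [h3]; ring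
    rw [h4, h2]
    ring

theorem m2_le {s : Finset ι} {ξ : ι → K → ℝ} (h : Exch s ξ) (hu : Function.Injective u)
    (hv : Function.Injective v) (huv : ∀ i j, u i ≠ v j)
    (h01 : ∀ a ∈ s, ∀ k, ξ a k = 0 ∨ ξ a k = 1) (t : Finset (Fin m)) :
    ∑ a ∈ s, (Zs u v t (ξ a)) ^ 2 ≤ t.card * s.card := by
  rw [m2_eq u v h hu hv huv t]
  calc ∑ i ∈ t, ∑ a ∈ s, (ξ a (u i) - ξ a (v i)) ^ 2 ≤ ∑ i ∈ t, ∑ a ∈ s, (1 : ℝ) :=
        sum_le_sum fun i _ => sum_le_sum fun a ha =>
          sq_le_one_of_mem (h01 a ha _) (h01 a ha _)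
    _ = t.card * s.card := by simp

theorem m4_le {s : Finset ι} {ξ : ι → K → ℝ} (h : Exch s ξ) (hu : Function.Injective u)
    (hv : Function.Injective v) (huv : ∀ i j, u i ≠ v j)
    (h01 : ∀ a ∈ s, ∀ k, ξ a k = 0 ∨ ξ a k = 1) (t : Finset (Fin m)) :
    ∑ a ∈ s, (Zs u v t (ξ a)) ^ 4 ≤ 3 * (t.card : ℝ) ^ 2 * s.card := by
  induction t using Finset.induction_on with
  | empty => simp [Zs]
  | insert i t hi ih =>
    have h1 := flip u v h hu hv huv t i hi (fun z e => (e + z) ^ 4)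
    have h3 : ∀ a, Zs u v (insert i t) (ξ a) = (ξ a (u i) - ξ a (v i)) + Zs u v t (ξ a) := by
      intro a
      unfold Zs
      rw [sum_insert hi]
    have h4 : 2 * ∑ a ∈ s, (Zs u v (insert i t) (ξ a)) ^ 4 =
        ∑ a ∈ s, (2 * (Zs u v t (ξ a)) ^ 4 +
          12 * ((Zs u v t (ξ a)) ^ 2 * (ξ a (u i) - ξ a (v i)) ^ 2) +
          2 * (ξ a (u i) - ξ a (v i)) ^ 4) := by
      rw [two_mul]
      simp only [h3]
      nth_rewrite 2 [h1]
      rw [← sum_add_distrib]
      exact sum_congr rfl fun a _ => by ring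
    have h5 : ∑ a ∈ s, (2 * (Zs u v t (ξ a)) ^ 4 +
          12 * ((Zs u v t (ξ a)) ^ 2 * (ξ a (u i) - ξ a (v i)) ^ 2) +
          2 * (ξ a (u i) - ξ a (v i)) ^ 4) ≤
        ∑ a ∈ s, (2 * (Zs u v t (ξ a)) ^ 4 + 12 * (Zs u v t (ξ a)) ^ 2 + 2) := by
      refine sum_le_sum fun a ha => ?_
      have h6 := sq_le_one_of_mem (h01 a ha (u i)) (h01 a ha (v i))
      have h7 : (Zs u v t (ξ a)) ^ 2 * (ξ a (u i) - ξ a (v i)) ^ 2 ≤ (Zs u v t (ξ a)) ^ 2 :=
        mul_le_of_le_one_right (sq_nonneg _) h6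
      have h8 : (ξ a (u i) - ξ a (v i)) ^ 4 ≤ 1 := by
        have : (ξ a (u i) - ξ a (v i)) ^ 4 = ((ξ a (u i) - ξ a (v i)) ^ 2) ^ 2 := by ring
        rw [this]
        exact pow_le_one₀ (sq_nonneg _) h6
      linarith
    have h9 : ∑ a ∈ s, (2 * (Zs u v t (ξ a)) ^ 4 + 12 * (Zs u v t (ξ a)) ^ 2 + 2) =
        2 * ∑ a ∈ s, (Zs u v t (ξ a)) ^ 4 + 12 * ∑ a ∈ s, (Zs u v t (ξ a)) ^ 2 +
          2 * s.card := by
      rw [mul_sum, mul_sum, ← sum_add_distrib]
      rw [sum_add_distrib]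
      simp
      ring
    have h10 := m2_le u v h hu hv huv h01 t
    rw [card_insert_of_notMem hi]
    push_cast
    have h11 : (0 : ℝ) ≤ s.card := Nat.cast_nonneg _
    have h12 : (0 : ℝ) ≤ (t.card : ℝ) * s.card := by positivity
    nlinarith [h4, h5, h9, h10, ih, h11, h12]

theorem pair_eq {s : Finset ι} {ξ : ι → K → ℝ} (h : Exch s ξ) {x y x' y' : K} (hxy : x ≠ y)
    (hxy' : x' ≠ y') :
    ∑ a ∈ s, (ξ a x - ξ a y) ^ 2 = ∑ a ∈ s, (ξ a x' - ξ a y') ^ 2 := by
  set z := Equiv.swap x x' y with hz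
  have hzx : z ≠ x' := by
    intro h'
    apply hxy
    have : Equiv.swap x x' y = Equiv.swap x x' x := by
      rw [← hz, h', Equiv.swap_apply_left]
    exact ((Equiv.swap x x').injective this).symm
  rw [← h (Equiv.swap z y' * Equiv.swap x x') (fun w => (w x - w y) ^ 2)]
  refine sum_congr rfl fun a _ => ?_
  have h1 : (Equiv.swap z y' * Equiv.swap x x') x = x' := by
    rw [Equiv.Perm.mul_apply, Equiv.swap_apply_left,
      Equiv.swap_apply_of_ne_of_ne hzx.symm hxy']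
  have h2 : (Equiv.swap z y' * Equiv.swap x x') y = y' := by
    rw [Equiv.Perm.mul_apply, ← hz, Equiv.swap_apply_left]
  simp only [h1, h2]

end

theorem double_sum {L : ℕ} (x : Fin L → ℝ) (h01 : ∀ k, x k = 0 ∨ x k = 1) :
    ∑ i, ∑ j, (x i - x j) ^ 2 = 2 * ((∑ i, x i) * (L - ∑ i, x i)) := by
  have hsq : ∀ k, x k ^ 2 = x k := by
    intro k
    rcases h01 k with h | h <;> rw [h] <;> norm_num
  have h1 : ∀ i, ∑ j, (x i - x j) ^ 2 = L * x i + ∑ j, x j - 2 * x i * ∑ j, x j := by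
    intro i
    have : ∀ j, (x i - x j) ^ 2 = x i + x j - 2 * x i * x j := by
      intro j
      have h2 := hsq i
      have h3 := hsq j
      linear_combination h2 + h3
    simp only [this, sum_sub_distrib, sum_add_distrib, ← mul_sum]
    simp
  simp only [h1]
  rw [sum_sub_distrib, sum_add_distrib, ← mul_sum, ← sum_mul, ← mul_sum]
  simp
  ring

/-- the main estimate for exchangeable 0/1 vectors -/
theorem exch_bound {ι : Type} {m : ℕ} (s : Finset ι) (hs : s.Nonempty)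
    (ξ : ι → Fin (2 * m) → ℝ) (h : Exch s ξ) (h01 : ∀ a ∈ s, ∀ k, ξ a k = 0 ∨ ξ a k = 1)
    (C κ z0 : ℝ) (hκ : 0 < κ)
    (hZ : ∑ a ∈ s, |(∑ i : Fin m, ξ a ⟨i, by omega⟩) -
      (∑ i : Fin m, ξ a ⟨m + i, by omega⟩) - z0| ≤ C * s.card)
    (hp : κ * (2 * m : ℝ) ^ 2 * s.card ≤ ∑ a ∈ s, (∑ k, ξ a k) * (2 * m - ∑ k, ξ a k)) :
    (m : ℝ) ≤ 3 * C ^ 2 / κ ^ 3 := by
  rcases Nat.eq_zero_or_pos m with rfl | hm
  · simp only [Nat.cast_zero]
    positivity
  set A : ℝ := (s.card : ℝ) with hA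
  have hA0 : 0 < A := by
    rw [hA]
    exact_mod_cast hs.card_pos
  let u : Fin m → Fin (2 * m) := fun i => ⟨i, by omega⟩
  let v : Fin m → Fin (2 * m) := fun i => ⟨2 * m - 1 - i, by omega⟩
  have hu : Function.Injective u := by
    intro i j hij
    simp only [u, Fin.mk.injEq] at hij
    exact Fin.ext hij
  have hv : Function.Injective v := by
    intro i j hij
    simp only [v, Fin.mk.injEq] at hij
    apply Fin.ext
    omega
  have huv : ∀ i j, u i ≠ v j := by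
    intro i j hij
    simp only [u, v, Fin.mk.injEq] at hij
    omega
  -- the half sums
  have hZ1 : ∀ x : Fin (2 * m) → ℝ, Zs u v univ x = (∑ i : Fin m, x ⟨i, by omega⟩) -
      (∑ i : Fin m, x ⟨m + i, by omega⟩) := by
    intro x
    unfold Zs
    rw [sum_sub_distrib]
    congr 1
    apply Fintype.sum_equiv (Fin.revPerm)
    intro i
    simp only [v, Fin.revPerm_apply]
    congr 1
    ext
    simp only [Fin.val_rev]
    omega
  simp only [← hZ1] at hZ
  -- symmetry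
  have hsym : ∀ g : ℝ → ℝ, ∑ a ∈ s, g (Zs u v univ (ξ a)) = ∑ a ∈ s, g (-Zs u v univ (ξ a)) := by
    intro g
    rw [← h (Fin.revPerm) (fun x => g (Zs u v univ x))]
    refine sum_congr rfl fun a _ => ?_
    congr 1
    unfold Zs
    rw [← sum_neg_distrib]
    refine sum_congr rfl fun i _ => ?_
    have e1 : Fin.revPerm (u i) = v i := by
      ext
      simp only [u, v, Fin.revPerm_apply, Fin.val_rev]
      omega
    have e2 : Fin.revPerm (v i) = u i := by
      ext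
      simp only [u, v, Fin.revPerm_apply, Fin.val_rev]
      omega
    beta_reduce
    rw [e1, e2]
    ring
  have habs : ∑ a ∈ s, |Zs u v univ (ξ a)| ≤ C * A := by
    have h1 := hsym (fun z => |z - z0|)
    have h2 : ∑ a ∈ s, 2 * |Zs u v univ (ξ a)| ≤
        ∑ a ∈ s, (|Zs u v univ (ξ a) - z0| + |-Zs u v univ (ξ a) - z0|) := by
      refine sum_le_sum fun a _ => ?_
      have : 2 * |Zs u v univ (ξ a)| = |(Zs u v univ (ξ a) - z0) - (-Zs u v univ (ξ a) - z0)| := by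
        have e : (Zs u v univ (ξ a) - z0) - (-Zs u v univ (ξ a) - z0) =
            2 * Zs u v univ (ξ a) := by ring
        rw [e, abs_mul, abs_of_pos (by norm_num : (0 : ℝ) < 2)]
      rw [this]
      exact abs_sub _ _
    rw [← mul_sum, sum_add_distrib] at h2
    rw [← h1] at h2
    linarith
  -- second moment
  have hm2 : 2 * κ * m * A ≤ ∑ a ∈ s, (Zs u v univ (ξ a)) ^ 2 := by
    rw [m2_eq u v h hu hv huv univ]
    set S := ∑ a ∈ s, (ξ a (u ⟨0, hm⟩) - ξ a (v ⟨0, hm⟩)) ^ 2 with hS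
    have hall : ∀ i : Fin m, ∑ a ∈ s, (ξ a (u i) - ξ a (v i)) ^ 2 = S := fun i =>
      pair_eq h (huv i i) (huv _ _)
    simp only [hall]
    rw [sum_const, card_univ, Fintype.card_fin, nsmul_eq_mul]
    have hS0 : 0 ≤ S := sum_nonneg fun a _ => sq_nonneg _
    have h3 : ∑ a ∈ s, 2 * ((∑ k, ξ a k) * (2 * m - ∑ k, ξ a k)) ≤ (2 * m : ℝ) ^ 2 * S := by
      have h4 : ∀ a ∈ s, 2 * ((∑ k, ξ a k) * (2 * m - ∑ k, ξ a k)) =
          ∑ i, ∑ j, (ξ a i - ξ a j) ^ 2 := by
        intro a ha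
        rw [double_sum (ξ a) (h01 a ha)]
        push_cast
        ring
      rw [sum_congr rfl h4, sum_comm]
      have h5 : ∀ i : Fin (2 * m), ∑ a ∈ s, ∑ j, (ξ a i - ξ a j) ^ 2 ≤ (2 * m : ℝ) * S := by
        intro i
        rw [sum_comm]
        calc ∑ j, ∑ a ∈ s, (ξ a i - ξ a j) ^ 2 ≤ ∑ j : Fin (2 * m), S := by
              refine sum_le_sum fun j _ => ?_
              by_cases hij : i = j
              · subst hij
                simpa using hS0
              · exact (pair_eq h hij (huv _ _)).le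
          _ = (2 * m : ℝ) * S := by
              rw [sum_const, card_univ, Fintype.card_fin, nsmul_eq_mul]
              push_cast
              ring
      calc ∑ i : Fin (2 * m), ∑ a ∈ s, ∑ j, (ξ a i - ξ a j) ^ 2 ≤
            ∑ i : Fin (2 * m), (2 * m : ℝ) * S := sum_le_sum fun i _ => h5 i
        _ = (2 * m : ℝ) ^ 2 * S := by
            rw [sum_const, card_univ, Fintype.card_fin, nsmul_eq_mul]
            push_cast
            ring
    rw [← mul_sum] at h3
    have hm' : (0 : ℝ) < m := by exact_mod_cast hm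
    have h6 : κ * (2 * m : ℝ) ^ 2 * A * 2 ≤ (2 * m : ℝ) ^ 2 * S := by linarith
    have h7 : κ * A * 2 ≤ S := by
      have : (0 : ℝ) < (2 * m : ℝ) ^ 2 := by positivity
      by_contra hlt
      push Not at hlt
      have := mul_lt_mul_of_pos_left hlt this
      linarith
    calc 2 * κ * m * A = m * (κ * A * 2) := by ring
      _ ≤ m * S := mul_le_mul_of_nonneg_left h7 hm'.le
  have hm4 := m4_le u v h hu hv huv h01 univ
  rw [card_univ, Fintype.card_fin] at hm4
  -- interpolation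
  have hm' : (0 : ℝ) < m := by exact_mod_cast hm
  have hkey : ∀ T : ℝ, 0 < T → 2 * κ * m ≤ T * C + 3 * (m : ℝ) ^ 2 / T ^ 2 := by
    intro T hT
    have h1 : ∀ z : ℝ, z ^ 2 ≤ T * |z| + z ^ 4 / T ^ 2 := by
      intro z
      rcases le_total (|z|) T with hz | hz
      · have : z ^ 2 ≤ T * |z| := by
          rw [← sq_abs, sq]
          exact mul_le_mul_of_nonneg_right hz (abs_nonneg z)
        have h2 : 0 ≤ z ^ 4 / T ^ 2 := by positivity
        linarith
      · have h2 : z ^ 2 ≤ z ^ 4 / T ^ 2 := by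
          rw [le_div_iff₀ (by positivity)]
          have h3 : T ^ 2 ≤ z ^ 2 := by
            rw [← sq_abs z]
            exact pow_le_pow_left₀ hT.le hz 2
          have h4 : z ^ 4 = z ^ 2 * z ^ 2 := by ring
          rw [h4]
          exact mul_le_mul_of_nonneg_left h3 (sq_nonneg z)
        have h5 : 0 ≤ T * |z| := by positivity
        linarith
    have h2 : ∑ a ∈ s, (Zs u v univ (ξ a)) ^ 2 ≤
        ∑ a ∈ s, (T * |Zs u v univ (ξ a)| + (Zs u v univ (ξ a)) ^ 4 / T ^ 2) :=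
      sum_le_sum fun a _ => h1 _
    rw [sum_add_distrib, ← mul_sum, ← sum_div] at h2
    have h3 : T * ∑ a ∈ s, |Zs u v univ (ξ a)| ≤ T * (C * A) :=
      mul_le_mul_of_nonneg_left habs hT.le
    have h4 : (∑ a ∈ s, (Zs u v univ (ξ a)) ^ 4) / T ^ 2 ≤ 3 * (m : ℝ) ^ 2 * A / T ^ 2 :=
      div_le_div_of_nonneg_right hm4 (by positivity)
    have h5 : 2 * κ * m * A ≤ (T * C + 3 * (m : ℝ) ^ 2 / T ^ 2) * A := by
      have : (T * C + 3 * (m : ℝ) ^ 2 / T ^ 2) * A =
          T * (C * A) + 3 * (m : ℝ) ^ 2 * A / T ^ 2 := by ring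
      rw [this]
      linarith
    exact le_of_mul_le_mul_right h5 hA0
  have hT : (0 : ℝ) < 3 * m / κ := by positivity
  have h1 := hkey (Real.sqrt (3 * m / κ)) (Real.sqrt_pos.2 hT)
  rw [Real.sq_sqrt hT.le] at h1
  have h2 : 3 * (m : ℝ) ^ 2 / (3 * m / κ) = κ * m := by
    field_simp
  rw [h2] at h1
  have h3 : κ * m ≤ Real.sqrt (3 * m / κ) * C := by linarith
  have h4 : (κ * m) ^ 2 ≤ (Real.sqrt (3 * m / κ) * C) ^ 2 :=
    pow_le_pow_left₀ (by positivity) h3 2
  rw [mul_pow (Real.sqrt _), Real.sq_sqrt hT.le] at h4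
  rw [le_div_iff₀ (by positivity)]
  have h5 : 3 * (m : ℝ) / κ * C ^ 2 * κ = 3 * m * C ^ 2 := by
    field_simp
  have h6 : (κ * m) ^ 2 * κ ≤ 3 * m * C ^ 2 := by
    rw [← h5]
    exact mul_le_mul_of_nonneg_right h4 hκ.le
  have h7 : (m * κ ^ 3) * m ≤ (3 * C ^ 2) * m := by nlinarith
  exact le_of_mul_le_mul_right h7 hm'

end Pool.Agent.Helper60.KS
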