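import Pool.Agent.Helper60.KS.Conc
import Pool.Agent.Helper60.KS.Exch

/-!
# Bounded spread implies bounded width

If in a finite poset the position of every element in a random linear extension has variance at
most `s ^ 2`, then the width of the poset is at most `W s`.
-/

set_option autoImplicit false

namespace Pool.Agent.Helper60.KS

open Finset Pool.Agent.Helper1.Balance Pool.Agent.Helper18.Interval

variable {n : ℕ}

theorem approx_exch_pos (L : ℕ) (hL : 0 < L) : ∃ C : ℝ, 0 ≤ C ∧ ∀ (τ : Equiv.Perm (Fin L))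
      (n : ℕ) (r : Fin n → Fin n → Prop) (I : Fin n → Prop) (_ : ∀ a b, r a b → I b → I a)
      (k0 : ℕ) (hn : k0 + L ≤ n) (η : ℝ)
      (_ : ∀ (i : ℕ) (hi : i + 1 < L), cmp r I (k0 + i) (by omega) ≤ η)
      (f : (Fin L → ℝ) → ℝ) (B : ℝ) (_ : ∀ x, |f x| ≤ B),
      |∑ σ ∈ LX r, f (fun j => word I k0 L σ (τ j)) -
        ∑ σ ∈ LX r, f (word I k0 L σ)| ≤ C * B * |η| := by
  obtain ⟨l, rfl⟩ : ∃ l, L = l + 1 := ⟨L - 1, by omega⟩
  obtain ⟨C, hC, h⟩ := approx_exch_all l
  exact ⟨C, hC, fun τ n r I hI k0 hn η hη f B hB =>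
    h τ n r I hI k0 hn η (fun i hi => hη i (by omega)) f B hB⟩

theorem word_zero_or_one (I : Fin n → Prop) (k0 L : ℕ) (σ : Equiv.Perm (Fin n)) (j : Fin L) :
    word I k0 L σ j = 0 ∨ word I k0 L σ j = 1 := ty_zero_or_one I σ _

theorem half1 (I : Fin n → Prop) (k0 m : ℕ) (σ : Equiv.Perm (Fin n)) (h : k0 + 2 * m ≤ n) :
    ∑ i : Fin m, word I k0 (2 * m) σ ⟨i, by omega⟩ = Y I σ (k0 + m) - Y I σ k0 := by
  rw [← sum_ty I σ k0 m (by omega)]
  exact Fin.sum_univ_eq_sum_range (fun j => ty I σ (k0 + j)) m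

theorem half2 (I : Fin n → Prop) (k0 m : ℕ) (σ : Equiv.Perm (Fin n)) (h : k0 + 2 * m ≤ n) :
    ∑ i : Fin m, word I k0 (2 * m) σ ⟨m + i, by omega⟩ =
      Y I σ (k0 + 2 * m) - Y I σ (k0 + m) := by
  have h1 := sum_ty I σ (k0 + m) m (by omega)
  have e : k0 + m + m = k0 + 2 * m := by ring
  rw [e] at h1
  rw [← h1, ← Fin.sum_univ_eq_sum_range (fun j => ty I σ (k0 + m + j)) m]
  refine sum_congr rfl fun i _ => ?_
  unfold word
  simp only [add_assoc]

theorem full_sum (I : Fin n → Prop) (k0 L : ℕ) (σ : Equiv.Perm (Fin n)) (h : k0 + L ≤ n) :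
    ∑ i : Fin L, word I k0 L σ i = Y I σ (k0 + L) - Y I σ k0 := by
  rw [← sum_ty I σ k0 L h]
  exact Fin.sum_univ_eq_sum_range (fun j => ty I σ (k0 + j)) L

/-- the core estimate -/
theorem core {r : Fin n → Fin n → Prop} {I : Fin n → Prop} {mu : Fin n → ℝ} {m k0 : ℕ}
    (hm : 0 < m) (hn : k0 + 2 * m ≤ n) (hN : 0 < (LX r).card) {c C1 : ℝ} (hc : 0 < c)
    (hC1 : 0 ≤ C1)
    (hconc : ∀ k : ℕ, ∑ σ ∈ LX r, |Y I σ k - Am I mu k| ≤ C1 * (LX r).card)
    (hA : ∀ k, k0 ≤ k → k < k0 + 2 * m → c * (LX r).card ≤ ∑ σ ∈ LX r, ty I σ k)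
    (hA' : ∀ k, k0 ≤ k → k < k0 + 2 * m → c * (LX r).card ≤ ∑ σ ∈ LX r, (1 - ty I σ k))
    (hex : ∀ (τ : Equiv.Perm (Fin (2 * m))) (f : (Fin (2 * m) → ℝ) → ℝ),
      (∀ x, |f x| ≤ 2 * m + 4 * C1) →
      |∑ σ ∈ LX r, f (fun j => word I k0 (2 * m) σ (τ j)) -
        ∑ σ ∈ LX r, f (word I k0 (2 * m) σ)| ≤ (LX r).card)
    (h1 : 4 * C1 ≤ c * (2 * m)) (h2 : 16 * C1 ≤ c ^ 2 * (2 * m)) :
    (m : ℝ) ≤ 3 * (4 * C1 + 1) ^ 2 / (c ^ 2 / 8) ^ 3 := by
  classical
  set N : ℝ := ((LX r).card : ℝ) with hNdef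
  have hN' : 0 < N := by rw [hNdef]; exact_mod_cast hN
  have hm' : (0 : ℝ) < m := by exact_mod_cast hm
  set z0 : ℝ := (Am I mu (k0 + m) - Am I mu k0) - (Am I mu (k0 + 2 * m) - Am I mu (k0 + m))
    with hz0
  -- first and second half
  have hhalf : ∀ σ : Equiv.Perm (Fin n), (∑ i : Fin m, word I k0 (2 * m) σ ⟨i, by omega⟩) -
      (∑ i : Fin m, word I k0 (2 * m) σ ⟨m + i, by omega⟩) =
      (Y I σ (k0 + m) - Y I σ k0) - (Y I σ (k0 + 2 * m) - Y I σ (k0 + m)) := by
    intro σ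
    rw [half1 I k0 m σ hn, half2 I k0 m σ hn]
  have hg : ∑ σ ∈ LX r, |(∑ i : Fin m, word I k0 (2 * m) σ ⟨i, by omega⟩) -
      (∑ i : Fin m, word I k0 (2 * m) σ ⟨m + i, by omega⟩) - z0| ≤ 4 * C1 * N := by
    have e1 := hconc k0
    have e2 := hconc (k0 + m)
    have e3 := hconc (k0 + 2 * m)
    have e4 : ∀ σ ∈ LX r, |(∑ i : Fin m, word I k0 (2 * m) σ ⟨i, by omega⟩) -
      (∑ i : Fin m, word I k0 (2 * m) σ ⟨m + i, by omega⟩) - z0| ≤
      |Y I σ k0 - Am I mu k0| + 2 * |Y I σ (k0 + m) - Am I mu (k0 + m)| +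
        |Y I σ (k0 + 2 * m) - Am I mu (k0 + 2 * m)| := by
      intro σ _
      rw [hhalf, hz0]
      have a1 := abs_le.1 (le_refl |Y I σ k0 - Am I mu k0|)
      have a2 := abs_le.1 (le_refl |Y I σ (k0 + m) - Am I mu (k0 + m)|)
      have a3 := abs_le.1 (le_refl |Y I σ (k0 + 2 * m) - Am I mu (k0 + 2 * m)|)
      rw [abs_le]
      constructor <;> linarith
    refine (sum_le_sum e4).trans ?_
    rw [sum_add_distrib, sum_add_distrib, ← mul_sum]
    linarith
  -- half differences are bounded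
  have hbd : ∀ w : Fin (2 * m) → ℝ, (∀ j, w j = 0 ∨ w j = 1) →
      |(∑ i : Fin m, w ⟨i, by omega⟩) - (∑ i : Fin m, w ⟨m + i, by omega⟩)| ≤ m := by
    intro w hw
    have b1 : ∀ j, 0 ≤ w j := fun j => by rcases hw j with h | h <;> rw [h] <;> norm_num
    have b2 : ∀ j, w j ≤ 1 := fun j => by rcases hw j with h | h <;> rw [h] <;> norm_num
    have s1 : 0 ≤ ∑ i : Fin m, w ⟨i, by omega⟩ := sum_nonneg fun i _ => b1 _
    have s2 : 0 ≤ ∑ i : Fin m, w ⟨m + i, by omega⟩ := sum_nonneg fun i _ => b1 _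
    have s3 : ∑ i : Fin m, w ⟨i, by omega⟩ ≤ m := by
      calc ∑ i : Fin m, w ⟨i, by omega⟩ ≤ ∑ i : Fin m, (1 : ℝ) := sum_le_sum fun i _ => b2 _
        _ = m := by simp
    have s4 : ∑ i : Fin m, w ⟨m + i, by omega⟩ ≤ m := by
      calc ∑ i : Fin m, w ⟨m + i, by omega⟩ ≤ ∑ i : Fin m, (1 : ℝ) :=
            sum_le_sum fun i _ => b2 _
        _ = m := by simp
    rw [abs_le]
    constructor <;> linarith
  have hz0le : |z0| ≤ m + 4 * C1 := by
    have e1 : N * |z0| ≤ (m + 4 * C1) * N := by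
      have e2 : ∑ σ ∈ LX r, |z0| ≤ ∑ σ ∈ LX r, ((m : ℝ) +
          |(∑ i : Fin m, word I k0 (2 * m) σ ⟨i, by omega⟩) -
      (∑ i : Fin m, word I k0 (2 * m) σ ⟨m + i, by omega⟩) - z0|) := by
        refine sum_le_sum fun σ _ => ?_
        have e3 := hbd (word I k0 (2 * m) σ) (fun j => word_zero_or_one I k0 _ σ j)
        have e4 := abs_sub_abs_le_abs_sub z0 ((∑ i : Fin m, word I k0 (2 * m) σ ⟨i, by omega⟩) -
          (∑ i : Fin m, word I k0 (2 * m) σ ⟨m + i, by omega⟩))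
        rw [abs_sub_comm z0] at e4
        linarith
      rw [sum_const, nsmul_eq_mul, sum_add_distrib, sum_const, nsmul_eq_mul] at e2
      linarith
    rw [mul_comm] at e1
    exact le_of_mul_le_mul_right e1 hN'
  -- the symmetrised family
  let S : Finset (Equiv.Perm (Fin (2 * m)) × Equiv.Perm (Fin n)) := univ ×ˢ LX r
  let ξ : Equiv.Perm (Fin (2 * m)) × Equiv.Perm (Fin n) → Fin (2 * m) → ℝ :=
    fun a j => word I k0 (2 * m) a.2 (a.1 j)
  have hSn : S.Nonempty := by
    rw [← card_pos, card_product]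
    exact Nat.mul_pos (by rw [card_univ]; exact Fintype.card_pos) hN
  have hex1 : Exch S ξ := by
    intro τ f
    simp only [S, ξ, sum_product]
    rw [sum_comm, sum_comm (s := univ)]
    refine sum_congr rfl fun σ _ => ?_
    exact Fintype.sum_equiv (Equiv.mulRight τ) _ _ (fun ρ => by
      simp only [Equiv.coe_mulRight, Equiv.Perm.mul_apply])
  have hScard : (S.card : ℝ) = (Fintype.card (Equiv.Perm (Fin (2 * m))) : ℝ) * N := by
    simp only [S, card_product, hNdef, card_univ]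
    push_cast
    ring
  set F : ℝ := (Fintype.card (Equiv.Perm (Fin (2 * m))) : ℝ) with hF
  have hF0 : 0 < F := by
    rw [hF]
    exact_mod_cast Fintype.card_pos
  have hZ : ∑ a ∈ S, |(∑ i : Fin m, ξ a ⟨i, by omega⟩) -
      (∑ i : Fin m, ξ a ⟨m + i, by omega⟩) - z0| ≤ (4 * C1 + 1) * S.card := by
    rw [hScard]
    simp only [S, sum_product]
    have e1 : ∀ ρ : Equiv.Perm (Fin (2 * m)), ∑ σ ∈ LX r,
        |(∑ i : Fin m, ξ (ρ, σ) ⟨i, by omega⟩) -
          (∑ i : Fin m, ξ (ρ, σ) ⟨m + i, by omega⟩) - z0| ≤ (4 * C1 + 1) * N := by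
      intro ρ
      let f : (Fin (2 * m) → ℝ) → ℝ := fun w =>
        min (|(∑ i : Fin m, w ⟨i, by omega⟩) -
          (∑ i : Fin m, w ⟨m + i, by omega⟩) - z0|) (2 * m + 4 * C1)
      have hB0 : 0 ≤ 2 * (m : ℝ) + 4 * C1 := by positivity
      have e2 := hex ρ f (fun x => by
        rw [abs_of_nonneg (le_min (abs_nonneg _) hB0)]
        exact min_le_right _ _)
      have e3 : ∀ w : Fin (2 * m) → ℝ, (∀ j, w j = 0 ∨ w j = 1) →
          f w = |(∑ i : Fin m, w ⟨i, by omega⟩) -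
          (∑ i : Fin m, w ⟨m + i, by omega⟩) - z0| := by
        intro w hw
        apply min_eq_left
        have e4 := hbd w hw
        have e5 := abs_sub ((∑ i : Fin m, w ⟨i, by omega⟩) -
          (∑ i : Fin m, w ⟨m + i, by omega⟩)) z0
        linarith
      have e4 : ∑ σ ∈ LX r, f (fun j => word I k0 (2 * m) σ (ρ j)) =
          ∑ σ ∈ LX r, |(∑ i : Fin m, ξ (ρ, σ) ⟨i, by omega⟩) -
          (∑ i : Fin m, ξ (ρ, σ) ⟨m + i, by omega⟩) - z0| :=
        sum_congr rfl fun σ _ => e3 _ (fun j => word_zero_or_one I k0 _ σ _)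
      have e5 : ∑ σ ∈ LX r, f (word I k0 (2 * m) σ) =
          ∑ σ ∈ LX r, |(∑ i : Fin m, word I k0 (2 * m) σ ⟨i, by omega⟩) -
          (∑ i : Fin m, word I k0 (2 * m) σ ⟨m + i, by omega⟩) - z0| :=
        sum_congr rfl fun σ _ => e3 _ (fun j => word_zero_or_one I k0 _ σ _)
      rw [e4, e5] at e2
      have e6 := (abs_le.1 e2).2
      linarith
    calc ∑ ρ : Equiv.Perm (Fin (2 * m)), ∑ σ ∈ LX r,
        |(∑ i : Fin m, ξ (ρ, σ) ⟨i, by omega⟩) -
          (∑ i : Fin m, ξ (ρ, σ) ⟨m + i, by omega⟩) - z0| ≤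
        ∑ ρ : Equiv.Perm (Fin (2 * m)), (4 * C1 + 1) * N := sum_le_sum fun ρ _ => e1 ρ
      _ = (4 * C1 + 1) * (F * N) := by
          rw [sum_const, card_univ, nsmul_eq_mul]
          ring
  -- the number of ones
  have hp0 : c ^ 2 / 8 * (2 * m : ℝ) ^ 2 * N ≤
      ∑ σ ∈ LX r, (∑ k, word I k0 (2 * m) σ k) * (2 * m - ∑ k, word I k0 (2 * m) σ k) := by
    set a : ℝ := Am I mu (k0 + 2 * m) - Am I mu k0 with ha
    have p0 : ∀ σ : Equiv.Perm (Fin n), 0 ≤ ∑ k, word I k0 (2 * m) σ k := fun σ =>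
      sum_nonneg fun j _ => ty_nonneg I σ _
    have p1 : ∀ σ : Equiv.Perm (Fin n), ∑ k, word I k0 (2 * m) σ k ≤ 2 * m := fun σ => by
      calc ∑ k, word I k0 (2 * m) σ k ≤ ∑ k : Fin (2 * m), (1 : ℝ) :=
            sum_le_sum fun j _ => ty_le_one I σ _
        _ = 2 * m := by simp
    have e1 : ∑ σ ∈ LX r, |∑ k, word I k0 (2 * m) σ k - a| ≤ 2 * C1 * N := by
      have b1 := hconc k0
      have b3 := hconc (k0 + 2 * m)
      have e4 : ∀ σ ∈ LX r, |∑ k, word I k0 (2 * m) σ k - a| ≤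
          |Y I σ k0 - Am I mu k0| + |Y I σ (k0 + 2 * m) - Am I mu (k0 + 2 * m)| := by
        intro σ _
        rw [full_sum I k0 (2 * m) σ hn, ha]
        have a1 := abs_le.1 (le_refl |Y I σ k0 - Am I mu k0|)
        have a3 := abs_le.1 (le_refl |Y I σ (k0 + 2 * m) - Am I mu (k0 + 2 * m)|)
        rw [abs_le]
        constructor <;> linarith
      refine (sum_le_sum e4).trans ?_
      rw [sum_add_distrib]
      linarith
    have e2 : c * (2 * m) * N ≤ ∑ σ ∈ LX r, ∑ k, word I k0 (2 * m) σ k := by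
      rw [sum_comm]
      have : ∀ k ∈ (univ : Finset (Fin (2 * m))), c * N ≤
          ∑ σ ∈ LX r, word I k0 (2 * m) σ k := fun k _ => hA _ (by omega) (by omega)
      have h3 := Finset.card_nsmul_le_sum _ _ _ this
      rw [card_univ, Fintype.card_fin, nsmul_eq_mul] at h3
      push_cast at h3
      linarith
    have e3 : c * (2 * m) * N ≤ ∑ σ ∈ LX r, (2 * m - ∑ k, word I k0 (2 * m) σ k) := by
      have h4 : ∀ σ ∈ LX r, (2 * m - ∑ k, word I k0 (2 * m) σ k : ℝ) =
          ∑ k, (1 - word I k0 (2 * m) σ k) := by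
        intro σ _
        rw [sum_sub_distrib]
        simp
      rw [sum_congr rfl h4, sum_comm]
      have : ∀ k ∈ (univ : Finset (Fin (2 * m))), c * N ≤
          ∑ σ ∈ LX r, (1 - word I k0 (2 * m) σ k) := fun k _ => hA' _ (by omega) (by omega)
      have h3 := Finset.card_nsmul_le_sum _ _ _ this
      rw [card_univ, Fintype.card_fin, nsmul_eq_mul] at h3
      push_cast at h3
      linarith
    have e4 : c * (2 * m) - 2 * C1 ≤ a := by
      have h3 : ∑ σ ∈ LX r, ∑ k, word I k0 (2 * m) σ k ≤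
          ∑ σ ∈ LX r, (a + |∑ k, word I k0 (2 * m) σ k - a|) := by
        refine sum_le_sum fun σ _ => ?_
        have := le_abs_self (∑ k, word I k0 (2 * m) σ k - a)
        linarith
      rw [sum_add_distrib, sum_const, nsmul_eq_mul] at h3
      have h4 : (c * (2 * m) - 2 * C1) * N ≤ a * N := by linarith
      exact le_of_mul_le_mul_right h4 hN'
    have e5 : c * (2 * m) - 2 * C1 ≤ 2 * m - a := by
      have h3 : ∑ σ ∈ LX r, (2 * m - ∑ k, word I k0 (2 * m) σ k) ≤
          ∑ σ ∈ LX r, ((2 * m - a) + |∑ k, word I k0 (2 * m) σ k - a|) := by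
        refine sum_le_sum fun σ _ => ?_
        have := neg_abs_le (∑ k, word I k0 (2 * m) σ k - a)
        linarith
      rw [sum_add_distrib, sum_const, nsmul_eq_mul] at h3
      have h4 : (c * (2 * m) - 2 * C1) * N ≤ (2 * m - a) * N := by linarith
      exact le_of_mul_le_mul_right h4 hN'
    have e6 : c * (2 * m) / 2 ≤ a := by linarith
    have e7 : c * (2 * m) / 2 ≤ 2 * m - a := by linarith
    have hcm : 0 < c * (2 * m) / 2 := by positivity
    have e8 : (c * (2 * m) / 2) * (c * (2 * m) / 2) ≤ a * (2 * m - a) :=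
      mul_le_mul e6 e7 hcm.le (by linarith)
    have e9 : ∑ σ ∈ LX r, (a * (2 * m - a) - 2 * m * |∑ k, word I k0 (2 * m) σ k - a|) ≤
        ∑ σ ∈ LX r, (∑ k, word I k0 (2 * m) σ k) * (2 * m - ∑ k, word I k0 (2 * m) σ k) := by
      refine sum_le_sum fun σ _ => ?_
      set p := ∑ k, word I k0 (2 * m) σ k with hp
      have q0 := p0 σ
      have q1 := p1 σ
      rw [← hp] at q0 q1
      have q2 : |2 * m - p - a| ≤ 2 * m := by
        rw [abs_le]
        constructor <;> linarith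
      have q3 : p * (2 * m - p) = a * (2 * m - a) + (p - a) * (2 * m - p - a) := by ring
      have q4 : -(2 * m * |p - a|) ≤ (p - a) * (2 * m - p - a) := by
        have q5 : |(p - a) * (2 * m - p - a)| ≤ |p - a| * (2 * m) := by
          rw [abs_mul]
          exact mul_le_mul_of_nonneg_left q2 (abs_nonneg _)
        have q6 := neg_abs_le ((p - a) * (2 * m - p - a))
        linarith
      linarith
    refine le_trans ?_ e9
    rw [sum_sub_distrib, sum_const, nsmul_eq_mul, ← mul_sum]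
    have e10 : 2 * (m : ℝ) * ∑ σ ∈ LX r, |∑ k, word I k0 (2 * m) σ k - a| ≤
        2 * m * (2 * C1 * N) := mul_le_mul_of_nonneg_left e1 (by positivity)
    have e11 : N * ((c * (2 * m) / 2) * (c * (2 * m) / 2)) ≤ N * (a * (2 * m - a)) :=
      mul_le_mul_of_nonneg_left e8 hN'.le
    have e12 : 16 * C1 * (2 * m) * N ≤ c ^ 2 * (2 * m) * (2 * m) * N := by
      have : 0 ≤ (2 * m : ℝ) * N := by positivity
      have := mul_le_mul_of_nonneg_right h2 this
      linarith
    have e13 : N * ((c * (2 * m) / 2) * (c * (2 * m) / 2)) = 2 * (c ^ 2 / 8 * (2 * m : ℝ) ^ 2 * N) := by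
      ring
    have e14 : 2 * (m : ℝ) * (2 * C1 * N) ≤ c ^ 2 / 8 * (2 * m : ℝ) ^ 2 * N := by
      linarith
    linarith
  have hp : c ^ 2 / 8 * (2 * m : ℝ) ^ 2 * S.card ≤
      ∑ a ∈ S, (∑ k, ξ a k) * (2 * m - ∑ k, ξ a k) := by
    rw [hScard]
    simp only [S, sum_product]
    have e1 : ∀ (ρ : Equiv.Perm (Fin (2 * m))) (σ : Equiv.Perm (Fin n)),
        ∑ k, ξ (ρ, σ) k = ∑ k, word I k0 (2 * m) σ k := fun ρ σ =>
      Equiv.sum_comp ρ (fun k => word I k0 (2 * m) σ k)
    simp only [e1]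
    rw [sum_const, card_univ, nsmul_eq_mul]
    have := mul_le_mul_of_nonneg_left hp0 hF0.le
    linarith
  exact exch_bound S hSn ξ hex1 (fun a _ k => word_zero_or_one I k0 _ _ _) (4 * C1 + 1)
    (c ^ 2 / 8) z0 (by positivity) hZ hp

/-- the constant `3 / (4 (4 s + 1))` -/
noncomputable def c0 (s : ℝ) : ℝ := 3 / (4 * (4 * s + 1))

open Classical in
theorem exists_pos {r : Fin n → Fin n → Prop} {mu : Fin n → ℝ} {s : ℝ} (hs : 0 < s)
    (hV : VarLe r mu s) (hN : 0 < (LX r).card) (b : Fin n) :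
    ∃ k : Fin n, |((k : ℕ) : ℝ) - mu b| < 2 * s ∧
      c0 s * (LX r).card ≤ (((LX r).filter (fun σ => σ b = k)).card : ℝ) := by
  by_contra hcon
  push Not at hcon
  have hN' : (0 : ℝ) < (LX r).card := by exact_mod_cast hN
  set P := univ.filter (fun k : Fin n => |((k : ℕ) : ℝ) - mu b| < 2 * s) with hP
  have h1 := near_mass hs hV b
  have h2 : (((LX r).filter (fun σ => |((σ b : ℕ) : ℝ) - mu b| < 2 * s)).card : ℝ) =
      ∑ k ∈ P, (((LX r).filter (fun σ => σ b = k)).card : ℝ) := by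
    have h3 : ((LX r).filter (fun σ => |((σ b : ℕ) : ℝ) - mu b| < 2 * s)).card =
        ∑ k ∈ P, (((LX r).filter (fun σ => |((σ b : ℕ) : ℝ) - mu b| < 2 * s)).filter
          (fun σ => σ b = k)).card := by
      apply Finset.card_eq_sum_card_fiberwise
      intro σ hσ
      rw [mem_coe, mem_filter] at hσ
      rw [hP, mem_coe, mem_filter]
      exact ⟨mem_univ _, hσ.2⟩
    rw [h3]
    push_cast
    refine sum_congr rfl fun k hk => ?_
    congr 2
    ext σ
    rw [mem_filter, mem_filter, mem_filter]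
    rw [hP, mem_filter] at hk
    constructor
    · rintro ⟨⟨h4, _⟩, h5⟩
      exact ⟨h4, h5⟩
    · rintro ⟨h4, h5⟩
      refine ⟨⟨h4, ?_⟩, h5⟩
      rw [h5]
      exact hk.2
  have h4 : (P.card : ℝ) ≤ 4 * s + 1 := by
    have h5 := count_near (Equiv.refl (Fin n)) (mu b) (2 * s) (by positivity)
    have h6 : P.card ≤
        (univ.filter (fun x : Fin n => |(((Equiv.refl (Fin n)) x : ℕ) : ℝ) - mu b| ≤ 2 * s)).card := by
      apply card_le_card
      intro x hx
      rw [hP, mem_filter] at hx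
      rw [mem_filter]
      exact ⟨mem_univ _, hx.2.le⟩
    have h7 : (P.card : ℝ) ≤
        ((univ.filter (fun x : Fin n => |(((Equiv.refl (Fin n)) x : ℕ) : ℝ) - mu b| ≤ 2 * s)).card : ℝ) := by
      exact_mod_cast h6
    linarith
  have hc0 : 0 < c0 s := by unfold c0; positivity
  rcases P.eq_empty_or_nonempty with hPe | hPn
  · rw [h2, hPe, sum_empty] at h1
    linarith
  · have h5 : ∑ k ∈ P, (((LX r).filter (fun σ => σ b = k)).card : ℝ) <
        ∑ k ∈ P, c0 s * (LX r).card := by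
      apply sum_lt_sum_of_nonempty hPn
      intro k hk
      rw [hP, mem_filter] at hk
      exact hcon k hk.2
    rw [sum_const, nsmul_eq_mul] at h5
    have h6 : (P.card : ℝ) * (c0 s * (LX r).card) ≤ (4 * s + 1) * (c0 s * (LX r).card) :=
      mul_le_mul_of_nonneg_right h4 (by positivity)
    have h7 : (4 * s + 1) * (c0 s * ((LX r).card : ℝ)) = 3 / 4 * (LX r).card := by
      unfold c0
      field_simp
    linarith

theorem mono_le {r : Fin n → Fin n → Prop} {I : Fin n → Prop}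
    (hI : ∀ a b, r a b → I b → I a) {k k' : ℕ} (h : k ≤ k') (hk : k' < n) :
    ∑ σ ∈ LX r, ty I σ k' ≤ ∑ σ ∈ LX r, ty I σ k := by
  induction k', h using Nat.le_induction with
  | base => exact le_rfl
  | succ j hj ih =>
    have h1 := mono_step hI (r := r) (k := j) hk
    have h2 := cmp_nonneg r I j hk
    have h3 := ih (by omega)
    linarith

/-- some window has few comparable adjacent pairs -/
theorem exists_window {r : Fin n → Fin n → Prop} {I : Fin n → Prop}
    (hI : ∀ a b, r a b → I b → I a) (k0 L M : ℕ) (hM : 0 < M) (h : k0 + M * L < n) :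
    ∃ t < M, ∀ (i : ℕ) (hi : i < L) (hk : k0 + t * L + i + 1 < n),
      cmp r I (k0 + t * L + i) hk ≤ (LX r).card / M := by
  have hM' : (0 : ℝ) < M := by exact_mod_cast hM
  let A : ℕ → ℝ := fun k => ∑ σ ∈ LX r, ty I σ k
  have h1 : ∑ t ∈ range M, (A (k0 + t * L) - A (k0 + (t + 1) * L)) ≤
      ∑ t ∈ range M, ((LX r).card / M : ℝ) := by
    have e1 : ∑ t ∈ range M, (A (k0 + t * L) - A (k0 + (t + 1) * L)) =
        A (k0 + 0 * L) - A (k0 + M * L) := by
      exact Finset.sum_range_sub' (fun t => A (k0 + t * L)) M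
    rw [e1, sum_const, card_range, nsmul_eq_mul]
    have e2 : (M : ℝ) * ((LX r).card / M) = (LX r).card := by field_simp
    rw [e2]
    have e3 : A (k0 + 0 * L) ≤ (LX r).card := by
      calc A (k0 + 0 * L) ≤ ∑ σ ∈ LX r, (1 : ℝ) := sum_le_sum fun σ _ => ty_le_one I σ _
        _ = (LX r).card := by simp
    have e4 : 0 ≤ A (k0 + M * L) := sum_nonneg fun σ _ => ty_nonneg I σ _
    linarith
  obtain ⟨t, ht, h2⟩ := exists_le_of_sum_le (nonempty_range_iff.2 hM.ne') h1
  rw [mem_range] at ht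
  refine ⟨t, ht, ?_⟩
  intro i hi hk
  refine le_trans ?_ h2
  have h3 : k0 + (t + 1) * L < n := by
    have : (t + 1) * L ≤ M * L := Nat.mul_le_mul_right L ht
    omega
  have h4 := mono_step hI (r := r) (k := k0 + t * L + i) hk
  have h5 := mono_le hI (r := r) (k := k0 + t * L) (k' := k0 + t * L + i) (by omega) (by omega)
  have h6 := mono_le hI (r := r) (k := k0 + t * L + i + 1) (k' := k0 + (t + 1) * L)
    (by rw [Nat.add_mul]; omega) h3
  simp only [A]
  linarith

/-- elements which are not below each other cannot be far apart -/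
theorem close (s : ℝ) (hs : 0 < s) : ∃ D : ℝ, 0 ≤ D ∧ ∀ (n : ℕ) (r : Fin n → Fin n → Prop)
    (mu : Fin n → ℝ), IsPoset r → VarLe r mu s → 0 < (LX r).card →
    ∀ a b, ¬ r a b → mu b - mu a ≤ D := by
  classical
  have hc0 : 0 < c0 s := by unfold c0; positivity
  have hC1 : 0 ≤ c1 s := by unfold c1; positivity
  obtain ⟨m, hm⟩ : ∃ m : ℕ, 3 * (4 * c1 s + 1) ^ 2 / (c0 s ^ 2 / 8) ^ 3 + 4 * c1 s / (c0 s * 2) +
    16 * c1 s / (c0 s ^ 2 * 2) < m := exists_nat_gt _
  have t1 : 0 ≤ 3 * (4 * c1 s + 1) ^ 2 / (c0 s ^ 2 / 8) ^ 3 := by positivity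
  have t2 : 0 ≤ 4 * c1 s / (c0 s * 2) := by positivity
  have t3 : 0 ≤ 16 * c1 s / (c0 s ^ 2 * 2) := by positivity
  have hm0 : 0 < m := by
    have : (0 : ℝ) < m := by linarith
    exact_mod_cast this
  have hm1 : 3 * (4 * c1 s + 1) ^ 2 / (c0 s ^ 2 / 8) ^ 3 < m := by linarith
  have hm2 : 4 * c1 s ≤ c0 s * (2 * m) := by
    have : 4 * c1 s / (c0 s * 2) ≤ m := by linarith
    rw [div_le_iff₀ (by positivity)] at this
    linarith
  have hm3 : 16 * c1 s ≤ c0 s ^ 2 * (2 * m) := by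
    have : 16 * c1 s / (c0 s ^ 2 * 2) ≤ m := by linarith
    rw [div_le_iff₀ (by positivity)] at this
    linarith
  obtain ⟨C, hC, hex⟩ := approx_exch_pos (2 * m) (by omega)
  obtain ⟨M, hM⟩ := exists_nat_gt (C * (2 * m + 4 * c1 s) )
  have hM0 : 0 < M := by
    have : (0 : ℝ) < M := lt_of_le_of_lt (by positivity) hM
    exact_mod_cast this
  have hM' : (0 : ℝ) < M := by exact_mod_cast hM0
  refine ⟨M * (2 * m) + 4 * s, by positivity, ?_⟩
  intro n r mu hr hV hN a b hab
  by_contra hlt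
  push Not at hlt
  have hN' : (0 : ℝ) < (LX r).card := by exact_mod_cast hN
  obtain ⟨ka, ha1, ha2⟩ := exists_pos hs hV hN a
  obtain ⟨kb, hb1, hb2⟩ := exists_pos hs hV hN b
  have hk : (ka : ℕ) + M * (2 * m) < kb := by
    have e1 := abs_lt.1 ha1
    have e2 := abs_lt.1 hb1
    have : ((ka : ℕ) : ℝ) + M * (2 * m) < ((kb : ℕ) : ℝ) := by linarith
    exact_mod_cast this
  let I : Fin n → Prop := fun x => r x b
  let J : Fin n → Prop := fun x => ¬ r a x
  have hI : ∀ x y, r x y → I y → I x := fun x y hxy hy => hr.2.1 x y b hxy hy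
  have hJ : ∀ x y, r x y → J y → J x := fun x y hxy hy hx => hy (hr.2.1 a x y hx hxy)
  have hIJ : ∀ x, I x → J x := fun x hx hax => hab (hr.2.1 a x b hax hx)
  obtain ⟨t, ht, hwin⟩ := exists_window hI (ka : ℕ) (2 * m) M hM0 (by omega)
  have htM : ka + t * (2 * m) + 2 * m ≤ ka + M * (2 * m) := by
    have : (t + 1) * (2 * m) ≤ M * (2 * m) := Nat.mul_le_mul_right _ ht
    rw [Nat.add_mul] at this
    omega
  have hn : ka + t * (2 * m) + 2 * m ≤ n := by omega
  refine absurd (core (r := r) (I := I) (mu := mu) (k0 := ka + t * (2 * m)) hm0 hn hN hc0 hC1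
    (fun k => conc hs hV hN I k) ?_ ?_ ?_ hm2 hm3) (not_le.2 hm1)
  · intro k _ hk2
    refine le_trans ?_ (mono_le hI (r := r) (k := k) (k' := kb) (by omega) kb.2)
    refine hb2.trans ?_
    rw [card_filter]
    push_cast
    refine sum_le_sum fun σ _ => ?_
    split_ifs with h
    · unfold ty
      rw [dif_pos kb.2]
      have : σ.symm ⟨(kb : ℕ), kb.2⟩ = b := by
        rw [Equiv.symm_apply_eq, h]
      rw [this, if_pos (hr.1 b)]
    · exact ty_nonneg I σ _
  · intro k hk1 hk2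
    have h1 : ∑ σ ∈ LX r, (1 - ty J σ ka) ≤ ∑ σ ∈ LX r, (1 - ty I σ k) := by
      have e1 := mono_le hJ (r := r) (k := ka) (k' := k) (by omega) (by omega)
      have e2 : ∑ σ ∈ LX r, ty I σ k ≤ ∑ σ ∈ LX r, ty J σ k := by
        refine sum_le_sum fun σ _ => ?_
        unfold ty
        split_ifs with g1 g2 g3 g4
        · exact le_rfl
        · exact absurd (hIJ _ g2) g3
        · norm_num
        · exact le_rfl
        · exact le_rfl
      rw [sum_sub_distrib, sum_sub_distrib]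
      linarith
    refine le_trans ?_ h1
    refine ha2.trans ?_
    rw [card_filter]
    push_cast
    refine sum_le_sum fun σ _ => ?_
    split_ifs with h
    · unfold ty
      rw [dif_pos ka.2]
      have : σ.symm ⟨(ka : ℕ), ka.2⟩ = a := by
        rw [Equiv.symm_apply_eq, h]
      rw [this, if_neg (fun h' => h' (hr.1 a))]
      norm_num
    · have := ty_le_one J σ ka
      linarith
  · intro τ f hf
    refine (hex τ n r I hI _ hn ((LX r).card / M) (fun i hi => hwin i (by omega) _) f _ hf).trans ?_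
    rw [abs_of_nonneg (by positivity)]
    rw [mul_div_assoc', div_le_iff₀ hM']
    have := mul_le_mul_of_nonneg_right hM.le hN'.le
    linarith

/-- **Bounded spread implies bounded width.** -/
theorem width_of_card_pos (s : ℝ) (hs : 0 < s) : ∃ W : ℕ, ∀ (n : ℕ) (r : Fin n → Fin n → Prop)
    (mu : Fin n → ℝ), IsPoset r → VarLe r mu s → 0 < (LX r).card →
    ∀ A : Finset (Fin n), IsAnti r A → A.card ≤ W := by
  classical
  obtain ⟨D, hD, h⟩ := close s hs
  refine ⟨⌈4 / 3 * (2 * D + 4 * s + 1)⌉₊, ?_⟩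
  intro n r mu hr hV hN A hA
  rcases A.eq_empty_or_nonempty with rfl | ⟨a0, ha0⟩
  · simp
  have h1 : A ⊆ univ.filter (fun x : Fin n => |mu x - mu a0| ≤ D) := by
    intro x hx
    rw [mem_filter]
    refine ⟨mem_univ _, ?_⟩
    by_cases hxa : x = a0
    · rw [hxa, sub_self, abs_zero]
      exact hD
    · rw [abs_le]
      have e1 := h n r mu hr hV hN x a0 (hA x hx a0 ha0 hxa)
      have e2 := h n r mu hr hV hN a0 x (hA a0 ha0 x hx (Ne.symm hxa))
      constructor <;> linarith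
  have h2 := density hs hV hN (mu a0) D hD
  have h3 : (A.card : ℝ) ≤ 4 / 3 * (2 * D + 4 * s + 1) :=
    le_trans (by exact_mod_cast card_le_card h1) h2
  exact_mod_cast h3.trans (Nat.le_ceil _)

/-- every finite poset has a linear extension -/
theorem LX_card_pos {r : Fin n → Fin n → Prop} (hr : IsPoset r) : 0 < (LX r).card := by
  classical
  haveI : IsPartialOrder (Fin n) r :=
    { refl := hr.1
      trans := hr.2.1
      antisymm := hr.2.2 }
  obtain ⟨t, ht, hrt⟩ := extend_partialOrder r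
  have t_refl : ∀ a, t a a := fun a => refl_of t a
  have t_trans : ∀ {a b c}, t a b → t b c → t a c := fun h1 h2 => trans_of t h1 h2
  have t_anti : ∀ {a b}, t a b → t b a → a = b := fun h1 h2 => antisymm_of t h1 h2
  have t_total : ∀ a b, t a b ∨ t b a := fun a b => total_of t a b
  let S : Fin n → Finset (Fin n) := fun x => univ.filter (fun y => t y x ∧ y ≠ x)
  have hmono : ∀ {a b}, t a b → S a ⊆ S b := by
    intro a b hab y hy
    rw [mem_filter] at hy ⊢
    refine ⟨mem_univ _, t_trans hy.2.1 hab, ?_⟩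
    rintro rfl
    exact hy.2.2 (t_anti hy.2.1 hab)
  have hstrict : ∀ {a b}, t a b → a ≠ b → S a ⊂ S b := by
    intro a b hab hne
    rw [ssubset_iff_subset_ne]
    refine ⟨hmono hab, ?_⟩
    intro h
    have h1 : a ∈ S b := by
      rw [mem_filter]
      exact ⟨mem_univ _, hab, hne⟩
    rw [← h, mem_filter] at h1
    exact h1.2.2 rfl
  have hlt : ∀ x, (S x).card < n := by
    intro x
    have h1 : (S x).card < (univ : Finset (Fin n)).card := by
      apply card_lt_card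
      rw [ssubset_univ_iff]
      intro h
      have := mem_univ x
      rw [← h, mem_filter] at this
      exact this.2.2 rfl
    simpa using h1
  let g : Fin n → Fin n := fun x => ⟨(S x).card, hlt x⟩
  have hg : Function.Injective g := by
    intro a b hab
    by_contra hne
    have h1 : (S a).card = (S b).card := congrArg Fin.val hab
    rcases t_total a b with h | h
    · exact absurd h1 (card_lt_card (hstrict h hne)).ne
    · exact absurd h1 (card_lt_card (hstrict h (Ne.symm hne))).ne'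
  have hbij : Function.Bijective g := Finite.injective_iff_bijective.1 hg
  rw [card_pos]
  refine ⟨Equiv.ofBijective g hbij, ?_⟩
  rw [mem_LX]
  intro a b hab
  rw [Equiv.ofBijective_apply, Equiv.ofBijective_apply]
  exact card_le_card (hmono (hrt _ _ hab))

/-- **Theorem 1: bounded spread implies bounded width.** -/
theorem width_bound (s : ℝ) (hs : 0 < s) : ∃ W : ℕ, ∀ (n : ℕ) (r : Fin n → Fin n → Prop)
    (mu : Fin n → ℝ), IsPoset r → VarLe r mu s →
    ∀ A : Finset (Fin n), IsAnti r A → A.card ≤ W := by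
  obtain ⟨W, hW⟩ := width_of_card_pos s hs
  exact ⟨W, fun n r mu hr hV A hA => hW n r mu hr hV (LX_card_pos hr) A hA⟩

/-- incomparable elements have close mean positions -/
theorem close_incomp (s : ℝ) (hs : 0 < s) : ∃ D : ℝ, 0 ≤ D ∧ ∀ (n : ℕ)
    (r : Fin n → Fin n → Prop) (mu : Fin n → ℝ), IsPoset r → VarLe r mu s →
    ∀ a b, ¬ r a b → ¬ r b a → |mu a - mu b| ≤ D := by
  obtain ⟨D, hD, h⟩ := close s hs
  refine ⟨D, hD, fun n r mu hr hV a b h1 h2 => ?_⟩
  rw [abs_le]
  have e1 := h n r mu hr hV (LX_card_pos hr) a b h1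
  have e2 := h n r mu hr hV (LX_card_pos hr) b a h2
  constructor <;> linarith

open Classical in
/-- **Bounded spread implies bounded incomparability degree.** -/
theorem incomp_bound (s : ℝ) (hs : 0 < s) : ∃ B : ℕ, ∀ (n : ℕ) (r : Fin n → Fin n → Prop)
    (mu : Fin n → ℝ), IsPoset r → VarLe r mu s →
    ∀ a, (univ.filter (fun b => ¬ r a b ∧ ¬ r b a)).card ≤ B := by
  obtain ⟨D, hD, h⟩ := close_incomp s hs
  refine ⟨⌈4 / 3 * (2 * D + 4 * s + 1)⌉₊, ?_⟩
  intro n r mu hr hV a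
  have h1 : univ.filter (fun b => ¬ r a b ∧ ¬ r b a) ⊆
      univ.filter (fun x : Fin n => |mu x - mu a| ≤ D) := by
    intro x hx
    rw [mem_filter] at hx ⊢
    exact ⟨mem_univ _, h n r mu hr hV x a hx.2.2 hx.2.1⟩
  have h2 := density hs hV (LX_card_pos hr) (mu a) D hD
  have h3 : ((univ.filter (fun b => ¬ r a b ∧ ¬ r b a)).card : ℝ) ≤
      4 / 3 * (2 * D + 4 * s + 1) := by
    refine le_trans ?_ h2
    exact_mod_cast card_le_card h1
  exact_mod_cast h3.trans (Nat.le_ceil _)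

end Pool.Agent.Helper60.KS
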