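import Pool.Agent.Helper60.KS.Swap

/-!
# Concentration consequences of a bound for the variances of all positions
-/

set_option autoImplicit false

namespace Pool.Agent.Helper60.KS

open Finset Pool.Agent.Helper1.Balance Pool.Agent.Helper18.Interval

variable {n : ℕ}

/-- all positions have second moment at most `s ^ 2` about the centres `mu` -/
def VarLe (r : Fin n → Fin n → Prop) (mu : Fin n → ℝ) (s : ℝ) : Prop :=
  ∀ x, ∑ σ ∈ LX r, (((σ x : ℕ) : ℝ) - mu x) ^ 2 ≤ s ^ 2 * (LX r).card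

open Classical in
theorem cheb {r : Fin n → Fin n → Prop} {mu : Fin n → ℝ} {s : ℝ} (hV : VarLe r mu s)
    (x : Fin n) {T : ℝ} (hT : 0 < T) :
    (((LX r).filter (fun σ => T ≤ |((σ x : ℕ) : ℝ) - mu x|)).card : ℝ) ≤
      s ^ 2 / T ^ 2 * (LX r).card := by
  have h1 : (((LX r).filter (fun σ => T ≤ |((σ x : ℕ) : ℝ) - mu x|)).card : ℝ) * T ^ 2 ≤
      s ^ 2 * (LX r).card := by
    refine le_trans ?_ (hV x)
    rw [card_filter]
    push_cast
    rw [sum_mul]
    refine sum_le_sum fun σ _ => ?_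
    split_ifs with h
    · rw [one_mul, ← sq_abs (((σ x : ℕ) : ℝ) - mu x)]
      exact pow_le_pow_left₀ hT.le h 2
    · rw [zero_mul]
      exact sq_nonneg _
  have hT2 : 0 < T ^ 2 := by positivity
  rw [div_mul_eq_mul_div, le_div_iff₀ hT2]
  exact h1

theorem count_near (σ : Equiv.Perm (Fin n)) (q R : ℝ) (hR : 0 ≤ R) :
    ((univ.filter (fun x : Fin n => |((σ x : ℕ) : ℝ) - q| ≤ R)).card : ℝ) ≤ 2 * R + 1 := by
  have h1 : (univ.filter (fun x : Fin n => |((σ x : ℕ) : ℝ) - q| ≤ R)).card ≤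
      (Finset.Icc ⌈q - R⌉ ⌊q + R⌋).card := by
    apply Finset.card_le_card_of_injOn (fun x => ((σ x : ℕ) : ℤ))
    · intro x hx
      rw [mem_coe, mem_filter] at hx
      have := abs_le.1 hx.2
      rw [mem_coe, mem_Icc, Int.ceil_le, Int.le_floor]
      push_cast
      constructor <;> linarith
    · intro x _ y _ h
      simp only [Nat.cast_inj] at h
      exact σ.injective (Fin.ext h)
  have h2 : ((Finset.Icc ⌈q - R⌉ ⌊q + R⌋).card : ℝ) ≤ 2 * R + 1 := by
    rw [Int.card_Icc]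
    rcases le_total (⌊q + R⌋ + 1 - ⌈q - R⌉) 0 with h | h
    · rw [Int.toNat_of_nonpos h]
      push_cast
      linarith
    · have h3 : (((⌊q + R⌋ + 1 - ⌈q - R⌉).toNat : ℕ) : ℝ) =
          ((⌊q + R⌋ + 1 - ⌈q - R⌉ : ℤ) : ℝ) := by
        have := Int.toNat_of_nonneg h
        exact_mod_cast congrArg (fun z : ℤ => (z : ℝ)) this
      rw [h3]
      push_cast
      have h4 := Int.floor_le (q + R)
      have h5 := Int.le_ceil (q - R)
      linarith
  exact le_trans (by exact_mod_cast h1) h2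

open Classical in
theorem near_mass {r : Fin n → Fin n → Prop} {mu : Fin n → ℝ} {s : ℝ} (hs : 0 < s)
    (hV : VarLe r mu s) (x : Fin n) :
    3 / 4 * ((LX r).card : ℝ) ≤
      (((LX r).filter (fun σ => |((σ x : ℕ) : ℝ) - mu x| < 2 * s)).card : ℝ) := by
  have h1 := cheb hV x (T := 2 * s) (by positivity)
  have h2 := Finset.card_filter_add_card_filter_not (s := LX r)
    (fun σ => |((σ x : ℕ) : ℝ) - mu x| < 2 * s)
  have h3 : (((LX r).filter (fun σ => |((σ x : ℕ) : ℝ) - mu x| < 2 * s)).card : ℝ) +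
      (((LX r).filter (fun σ => ¬ |((σ x : ℕ) : ℝ) - mu x| < 2 * s)).card : ℝ) =
      (LX r).card := by exact_mod_cast h2
  have h4 : s ^ 2 / (2 * s) ^ 2 = 1 / 4 := by
    field_simp
    norm_num
  rw [h4] at h1
  simp only [not_lt] at h3
  linarith

open Classical in
theorem density {r : Fin n → Fin n → Prop} {mu : Fin n → ℝ} {s : ℝ} (hs : 0 < s)
    (hV : VarLe r mu s) (hN : 0 < (LX r).card) (q l : ℝ) (hl : 0 ≤ l) :
    ((univ.filter (fun x : Fin n => |mu x - q| ≤ l)).card : ℝ) ≤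
      4 / 3 * (2 * l + 4 * s + 1) := by
  set X := univ.filter (fun x : Fin n => |mu x - q| ≤ l) with hX
  have hN' : (0 : ℝ) < (LX r).card := by exact_mod_cast hN
  have h1 : (X.card : ℝ) * (3 / 4 * ((LX r).card : ℝ)) ≤
      ∑ x ∈ X, (((LX r).filter (fun σ => |((σ x : ℕ) : ℝ) - mu x| < 2 * s)).card : ℝ) := by
    rw [← nsmul_eq_mul]
    exact Finset.card_nsmul_le_sum _ _ _ (fun x _ => near_mass hs hV x)
  have h2 : ∑ x ∈ X, (((LX r).filter (fun σ => |((σ x : ℕ) : ℝ) - mu x| < 2 * s)).card : ℝ) ≤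
      (LX r).card * (2 * (l + 2 * s) + 1) := by
    have h3 : ∀ x ∈ X, (((LX r).filter (fun σ => |((σ x : ℕ) : ℝ) - mu x| < 2 * s)).card : ℝ) =
        ∑ σ ∈ LX r, (if |((σ x : ℕ) : ℝ) - mu x| < 2 * s then (1 : ℝ) else 0) := by
      intro x _
      rw [card_filter]
      push_cast
      rfl
    rw [sum_congr rfl h3, sum_comm]
    have h4 : ∀ σ ∈ LX r, ∑ x ∈ X, (if |((σ x : ℕ) : ℝ) - mu x| < 2 * s then (1 : ℝ) else 0) ≤
        2 * (l + 2 * s) + 1 := by
      intro σ _
      refine le_trans ?_ (count_near σ q (l + 2 * s) (by positivity))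
      rw [card_filter]
      push_cast
      calc ∑ x ∈ X, (if |((σ x : ℕ) : ℝ) - mu x| < 2 * s then (1 : ℝ) else 0) ≤
          ∑ x ∈ X, (if |((σ x : ℕ) : ℝ) - q| ≤ l + 2 * s then (1 : ℝ) else 0) := by
            refine sum_le_sum fun x hx => ?_
            rw [hX, mem_filter] at hx
            split_ifs with h5 h6 h6
            · exact le_rfl
            · exfalso
              apply h6
              have := abs_sub_le ((σ x : ℕ) : ℝ) (mu x) q
              linarith [hx.2]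
            · norm_num
            · exact le_rfl
        _ ≤ ∑ x, (if |((σ x : ℕ) : ℝ) - q| ≤ l + 2 * s then (1 : ℝ) else 0) := by
            apply sum_le_sum_of_subset_of_nonneg (subset_univ _)
            intro x _ _
            split_ifs <;> norm_num
    calc ∑ σ ∈ LX r, ∑ x ∈ X, (if |((σ x : ℕ) : ℝ) - mu x| < 2 * s then (1 : ℝ) else 0) ≤
        ∑ σ ∈ LX r, (2 * (l + 2 * s) + 1) := sum_le_sum h4
      _ = (LX r).card * (2 * (l + 2 * s) + 1) := by rw [sum_const, nsmul_eq_mul]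
  have h5 : ((LX r).card : ℝ) * (X.card * (3 / 4)) ≤
      (LX r).card * (2 * (l + 2 * s) + 1) := by linarith
  have h6 := le_of_mul_le_mul_left h5 hN'
  linarith

open Classical in
/-- the number of elements of `I` in positions `< k` -/
noncomputable def Y (I : Fin n → Prop) (σ : Equiv.Perm (Fin n)) (k : ℕ) : ℝ :=
  ∑ x, if I x ∧ (σ x : ℕ) < k then (1 : ℝ) else 0

open Classical in
/-- the number of elements of `I` with centre `< k` -/
noncomputable def Am (I : Fin n → Prop) (mu : Fin n → ℝ) (k : ℕ) : ℝ :=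
  ∑ x, if I x ∧ mu x < k then (1 : ℝ) else 0

theorem sum_inv_sq (J : ℕ) : ∑ j ∈ range J, 1 / ((j : ℝ) + 1) ^ 2 ≤ 2 - 2 / ((J : ℝ) + 1) := by
  induction J with
  | zero => norm_num
  | succ J ih =>
    rw [sum_range_succ]
    have h1 : 1 / ((J : ℝ) + 1) ^ 2 ≤ 2 / ((J : ℝ) + 1) - 2 / ((J : ℝ) + 1 + 1) := by
      have h0 : (0 : ℝ) ≤ J := Nat.cast_nonneg J
      rw [div_sub_div _ _ (by positivity) (by positivity), div_le_div_iff₀ (by positivity)
        (by positivity)]
      nlinarith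
    push_cast
    linarith

open Classical in
theorem shell_sum {mu : Fin n → ℝ} {D k : ℝ} (hD : ∀ q : ℝ,
    ((univ.filter (fun x : Fin n => |mu x - q| ≤ 1 / 2)).card : ℝ) ≤ D) :
    ∑ x : Fin n, 1 / ((⌊|mu x - k|⌋₊ : ℝ) + 1) ^ 2 ≤ 4 * D := by
  have hD0 : 0 ≤ D := le_trans (Nat.cast_nonneg _) (hD 0)
  obtain ⟨J, hJ⟩ : ∃ J : ℕ, ∀ x : Fin n, ⌊|mu x - k|⌋₊ < J := by
    refine ⟨(univ.sup fun x : Fin n => ⌊|mu x - k|⌋₊) + 1, fun x => ?_⟩
    exact Nat.lt_succ_of_le (Finset.le_sup (f := fun x : Fin n => ⌊|mu x - k|⌋₊) (mem_univ x))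
  have h1 : ∑ x : Fin n, 1 / ((⌊|mu x - k|⌋₊ : ℝ) + 1) ^ 2 =
      ∑ j ∈ range J, ∑ x ∈ univ.filter (fun x : Fin n => ⌊|mu x - k|⌋₊ = j),
        1 / ((⌊|mu x - k|⌋₊ : ℝ) + 1) ^ 2 := by
    rw [Finset.sum_fiberwise_of_maps_to]
    intro x _
    rw [mem_range]
    exact hJ x
  rw [h1]
  have h2 : ∀ j ∈ range J, ∑ x ∈ univ.filter (fun x : Fin n => ⌊|mu x - k|⌋₊ = j),
        1 / ((⌊|mu x - k|⌋₊ : ℝ) + 1) ^ 2 ≤ (2 * D) * (1 / ((j : ℝ) + 1) ^ 2) := by
    intro j _
    have h3 : ∀ x ∈ univ.filter (fun x : Fin n => ⌊|mu x - k|⌋₊ = j),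
        1 / ((⌊|mu x - k|⌋₊ : ℝ) + 1) ^ 2 = 1 / ((j : ℝ) + 1) ^ 2 := by
      intro x hx
      rw [mem_filter] at hx
      rw [hx.2]
    rw [sum_congr rfl h3, sum_const, nsmul_eq_mul]
    have h4 : ((univ.filter (fun x : Fin n => ⌊|mu x - k|⌋₊ = j)).card : ℝ) ≤ 2 * D := by
      have h5 : univ.filter (fun x : Fin n => ⌊|mu x - k|⌋₊ = j) ⊆
          univ.filter (fun x : Fin n => |mu x - (k + j + 1 / 2)| ≤ 1 / 2) ∪
          univ.filter (fun x : Fin n => |mu x - (k - j - 1 / 2)| ≤ 1 / 2) := by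
        intro x hx
        rw [mem_filter] at hx
        rw [mem_union, mem_filter, mem_filter]
        have h6 := Nat.floor_le (abs_nonneg (mu x - k))
        have h7 := Nat.lt_floor_add_one (|mu x - k|)
        rw [hx.2] at h6 h7
        rcases le_total 0 (mu x - k) with h8 | h8
        · left
          rw [abs_of_nonneg h8] at h6 h7
          refine ⟨mem_univ _, abs_le.2 ⟨by linarith, by linarith⟩⟩
        · right
          rw [abs_of_nonpos h8] at h6 h7
          refine ⟨mem_univ _, abs_le.2 ⟨by linarith, by linarith⟩⟩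
      have h6 := (card_le_card h5).trans (card_union_le _ _)
      have h7 := hD (k + j + 1 / 2)
      have h8 := hD (k - j - 1 / 2)
      have h9 : ((univ.filter (fun x : Fin n => ⌊|mu x - k|⌋₊ = j)).card : ℝ) ≤
          ((univ.filter (fun x : Fin n => |mu x - (k + j + 1 / 2)| ≤ 1 / 2)).card : ℝ) +
          ((univ.filter (fun x : Fin n => |mu x - (k - j - 1 / 2)| ≤ 1 / 2)).card : ℝ) := by
        exact_mod_cast h6
      linarith
    exact mul_le_mul_of_nonneg_right h4 (by positivity)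
  refine (sum_le_sum h2).trans ?_
  rw [← mul_sum]
  have h3 := sum_inv_sq J
  have h4 : (0 : ℝ) ≤ 2 / ((J : ℝ) + 1) := by positivity
  nlinarith

/-- the constant of the concentration estimate -/
noncomputable def c1 (s : ℝ) : ℝ := 4 * (1 + s ^ 2) * (4 * (4 / 3 * (2 + 4 * s)))

open Classical in
theorem conc {r : Fin n → Fin n → Prop} {mu : Fin n → ℝ} {s : ℝ} (hs : 0 < s)
    (hV : VarLe r mu s) (hN : 0 < (LX r).card) (I : Fin n → Prop) (k : ℕ) :
    ∑ σ ∈ LX r, |Y I σ k - Am I mu k| ≤ c1 s * (LX r).card := by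
  have hN' : (0 : ℝ) < (LX r).card := by exact_mod_cast hN
  have h1 : ∀ σ ∈ LX r, |Y I σ k - Am I mu k| ≤
      ∑ x, (if |mu x - k| ≤ |((σ x : ℕ) : ℝ) - mu x| then (1 : ℝ) else 0) := by
    intro σ _
    unfold Y Am
    rw [← sum_sub_distrib]
    refine (abs_sum_le_sum_abs _ _).trans (sum_le_sum fun x _ => ?_)
    by_cases hI : I x
    · by_cases h2 : (σ x : ℕ) < k
      · by_cases h3 : mu x < k
        · simp only [hI, h2, h3, and_self, if_true, sub_self, abs_zero]
          split_ifs <;> norm_num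
        · have h2' : ((σ x : ℕ) : ℝ) < k := by exact_mod_cast h2
          push Not at h3
          rw [if_pos (show |mu x - k| ≤ |((σ x : ℕ) : ℝ) - mu x| from by
            rw [abs_of_nonneg (by linarith), abs_of_nonpos (by linarith)]
            linarith)]
          rw [if_pos ⟨hI, h2⟩, if_neg (fun h => absurd h.2 (not_lt.2 h3))]
          norm_num
      · by_cases h3 : mu x < k
        · have h2' : (k : ℝ) ≤ ((σ x : ℕ) : ℝ) := by
            push Not at h2
            exact_mod_cast h2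
          rw [if_pos (show |mu x - k| ≤ |((σ x : ℕ) : ℝ) - mu x| from by
            rw [abs_of_nonpos (by linarith), abs_of_nonneg (by linarith)]
            linarith)]
          rw [if_neg (fun h => h2 h.2), if_pos ⟨hI, h3⟩]
          norm_num
        · rw [if_neg (fun h => h2 h.2), if_neg (fun h => h3 h.2)]
          simp only [sub_self, abs_zero]
          split_ifs <;> norm_num
    · simp only [hI, false_and, if_false, sub_self, abs_zero]
      split_ifs <;> norm_num
  refine (sum_le_sum h1).trans ?_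
  rw [sum_comm]
  have h2 : ∀ x : Fin n, ∑ σ ∈ LX r,
      (if |mu x - k| ≤ |((σ x : ℕ) : ℝ) - mu x| then (1 : ℝ) else 0) ≤
      (4 * (1 + s ^ 2) * (LX r).card) * (1 / ((⌊|mu x - k|⌋₊ : ℝ) + 1) ^ 2) := by
    intro x
    have h3 : ∑ σ ∈ LX r, (if |mu x - k| ≤ |((σ x : ℕ) : ℝ) - mu x| then (1 : ℝ) else 0) =
        (((LX r).filter (fun σ => |mu x - k| ≤ |((σ x : ℕ) : ℝ) - mu x|)).card : ℝ) := by
      rw [card_filter]
      push_cast
      rfl
    rw [h3]
    rcases Nat.eq_zero_or_pos ⌊|mu x - k|⌋₊ with h4 | h4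
    · rw [h4]
      have h5 : (((LX r).filter (fun σ => |mu x - k| ≤ |((σ x : ℕ) : ℝ) - mu x|)).card : ℝ) ≤
          (LX r).card := by exact_mod_cast card_filter_le _ _
      push_cast
      have h6 : (0 : ℝ) ≤ s ^ 2 := sq_nonneg s
      have h7 : 4 * (1 + s ^ 2) * ((LX r).card : ℝ) * (1 / (0 + 1) ^ 2) =
        (LX r).card + (3 + 4 * s ^ 2) * (LX r).card := by ring
      rw [h7]
      have : 0 ≤ (3 + 4 * s ^ 2) * ((LX r).card : ℝ) := by positivity
      linarith
    · have h5 := Nat.floor_le (abs_nonneg (mu x - k))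
      have h4' : (1 : ℝ) ≤ (⌊|mu x - k|⌋₊ : ℝ) := by exact_mod_cast h4
      have h6 : 0 < |mu x - k| := by linarith
      refine (cheb hV x h6).trans ?_
      have h7 : s ^ 2 / |mu x - k| ^ 2 ≤ 4 * (1 + s ^ 2) * (1 / ((⌊|mu x - k|⌋₊ : ℝ) + 1) ^ 2) := by
        rw [mul_one_div, div_le_div_iff₀ (by positivity) (by positivity)]
        have h8 : ((⌊|mu x - k|⌋₊ : ℝ) + 1) ^ 2 ≤ 4 * |mu x - k| ^ 2 := by
          have : (⌊|mu x - k|⌋₊ : ℝ) + 1 ≤ 2 * |mu x - k| := by linarith
          calc ((⌊|mu x - k|⌋₊ : ℝ) + 1) ^ 2 ≤ (2 * |mu x - k|) ^ 2 :=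
                pow_le_pow_left₀ (by positivity) this 2
            _ = 4 * |mu x - k| ^ 2 := by ring
        have h9 : 0 ≤ |mu x - k| ^ 2 := sq_nonneg _
        have h10 := mul_le_mul_of_nonneg_left h8 (sq_nonneg s)
        nlinarith
      calc s ^ 2 / |mu x - k| ^ 2 * ((LX r).card : ℝ) ≤
          (4 * (1 + s ^ 2) * (1 / ((⌊|mu x - k|⌋₊ : ℝ) + 1) ^ 2)) * (LX r).card :=
            mul_le_mul_of_nonneg_right h7 hN'.le
        _ = _ := by ring
  refine (sum_le_sum fun x _ => h2 x).trans ?_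
  rw [← mul_sum]
  have h3 : ∀ q : ℝ, ((univ.filter (fun x : Fin n => |mu x - q| ≤ 1 / 2)).card : ℝ) ≤
      4 / 3 * (2 + 4 * s) := by
    intro q
    have := density hs hV hN q (1 / 2) (by norm_num)
    linarith
  have h4 := shell_sum (k := (k : ℝ)) h3
  unfold c1
  have h5 : (0 : ℝ) ≤ 4 * (1 + s ^ 2) * (LX r).card := by positivity
  have h6 := mul_le_mul_of_nonneg_left h4 h5
  linarith

/-- increments of `Y` -/
theorem Y_succ (I : Fin n → Prop) (σ : Equiv.Perm (Fin n)) {k : ℕ} (hk : k < n) :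
    Y I σ (k + 1) = Y I σ k + ty I σ k := by
  classical
  have h1 : Y I σ (k + 1) - Y I σ k = ty I σ k := by
    unfold Y ty
    rw [← sum_sub_distrib, dif_pos hk]
    rw [sum_eq_single (σ.symm ⟨k, hk⟩)]
    · rw [Equiv.apply_symm_apply]
      simp only [lt_add_iff_pos_right, zero_lt_one, and_true, lt_self_iff_false, and_false,
        if_false, sub_zero]
    · intro x _ hx
      have h2 : (σ x : ℕ) ≠ k := by
        intro h
        apply hx
        rw [Equiv.eq_symm_apply]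
        exact Fin.ext h
      by_cases hI : I x
      · by_cases h3 : (σ x : ℕ) < k
        · rw [if_pos ⟨hI, by omega⟩, if_pos ⟨hI, h3⟩, sub_self]
        · rw [if_neg (fun h => by omega), if_neg (fun h => h3 h.2), sub_self]
      · rw [if_neg (fun h => hI h.1), if_neg (fun h => hI h.1), sub_self]
    · intro h
      exact absurd (mem_univ _) h
  linarith

theorem sum_ty (I : Fin n → Prop) (σ : Equiv.Perm (Fin n)) (k0 L : ℕ) (h : k0 + L ≤ n) :
    ∑ j ∈ range L, ty I σ (k0 + j) = Y I σ (k0 + L) - Y I σ k0 := by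
  induction L with
  | zero => simp
  | succ L ih =>
    rw [sum_range_succ, ih (by omega), ← add_assoc, Y_succ I σ (by omega)]
    ring

end Pool.Agent.Helper60.KS
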