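import Mathlib
import Pool.Agent.Helper18.Interval.Basic

/-!
# Adjacent exchanges in a random linear extension and the type word of an ideal
-/

set_option autoImplicit false

namespace Pool.Agent.Helper60.KS

open Finset Pool.Agent.Helper1.Balance Pool.Agent.Helper18.Interval

open Classical in
/-- type of the element in position `k`: `1` if it belongs to `I` -/
noncomputable def ty {n : ℕ} (I : Fin n → Prop) (σ : Equiv.Perm (Fin n)) (k : ℕ) : ℝ :=
  if h : k < n then (if I (σ.symm ⟨k, h⟩) then 1 else 0) else 0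

variable {n : ℕ}

theorem ty_zero_or_one (I : Fin n → Prop) (σ : Equiv.Perm (Fin n)) (k : ℕ) :
    ty I σ k = 0 ∨ ty I σ k = 1 := by
  unfold ty
  split_ifs <;> simp

theorem ty_nonneg (I : Fin n → Prop) (σ : Equiv.Perm (Fin n)) (k : ℕ) : 0 ≤ ty I σ k := by
  rcases ty_zero_or_one I σ k with h | h <;> rw [h] <;> norm_num

theorem ty_le_one (I : Fin n → Prop) (σ : Equiv.Perm (Fin n)) (k : ℕ) : ty I σ k ≤ 1 := by
  rcases ty_zero_or_one I σ k with h | h <;> rw [h] <;> norm_num

/-- the elements in positions `k` and `k + 1` are incomparable -/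
def inc (r : Fin n → Fin n → Prop) (k : ℕ) (hk : k + 1 < n) (σ : Equiv.Perm (Fin n)) : Prop :=
  ¬ r (σ.symm ⟨k, by omega⟩) (σ.symm ⟨k + 1, hk⟩)

/-- the adjacent transposition of positions -/
def sw (k : ℕ) (hk : k + 1 < n) : Equiv.Perm (Fin n) :=
  Equiv.swap ⟨k, by omega⟩ ⟨k + 1, hk⟩

theorem sw_lt {k : ℕ} (hk : k + 1 < n) {p q : Fin n} (h : p < q)
    (hpq : ¬ (p = ⟨k, by omega⟩ ∧ q = ⟨k + 1, hk⟩)) : sw k hk p < sw k hk q := by
  unfold sw
  rw [Equiv.swap_apply_def, Equiv.swap_apply_def]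
  simp only [Fin.ext_iff] at hpq ⊢
  rw [Fin.lt_def] at h ⊢
  split_ifs <;> simp_all <;> omega

open Classical in
/-- exchange the elements in positions `k`, `k + 1` if they are incomparable -/
noncomputable def phi (r : Fin n → Fin n → Prop) (k : ℕ) (hk : k + 1 < n)
    (σ : Equiv.Perm (Fin n)) : Equiv.Perm (Fin n) :=
  if inc r k hk σ then σ.trans (sw k hk) else σ

theorem trans_sw_mem {r : Fin n → Fin n → Prop} {k : ℕ} (hk : k + 1 < n)
    {σ : Equiv.Perm (Fin n)} (hσ : σ ∈ LX r) (h : inc r k hk σ) : σ.trans (sw k hk) ∈ LX r := by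
  rw [mem_LX] at hσ ⊢
  intro a b hab
  rcases (hσ a b hab).lt_or_eq with h1 | h1
  · apply le_of_lt
    apply sw_lt hk h1
    rintro ⟨h2, h3⟩
    apply h
    rw [← h2, ← h3, Equiv.symm_apply_apply, Equiv.symm_apply_apply]
    exact hab
  · rw [σ.injective h1]

theorem symm_trans_sw (σ : Equiv.Perm (Fin n)) {k : ℕ} (hk : k + 1 < n) (p : Fin n) :
    (σ.trans (sw k hk)).symm p = σ.symm (sw k hk p) := by
  rw [Equiv.symm_trans_apply]
  unfold sw
  rw [Equiv.symm_swap]

theorem inc_trans_sw {r : Fin n → Fin n → Prop} {k : ℕ} (hk : k + 1 < n)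
    {σ : Equiv.Perm (Fin n)} (hσ : σ ∈ LX r) : inc r k hk (σ.trans (sw k hk)) := by
  unfold inc
  rw [symm_trans_sw, symm_trans_sw]
  unfold sw
  rw [Equiv.swap_apply_left, Equiv.swap_apply_right]
  intro h
  have := (mem_LX.1 hσ) _ _ h
  rw [Equiv.apply_symm_apply, Equiv.apply_symm_apply, Fin.le_def] at this
  simp only at this
  omega

theorem phi_mem {r : Fin n → Fin n → Prop} {k : ℕ} (hk : k + 1 < n)
    {σ : Equiv.Perm (Fin n)} (hσ : σ ∈ LX r) : phi r k hk σ ∈ LX r := by
  unfold phi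
  split_ifs with h
  · exact trans_sw_mem hk hσ h
  · exact hσ

theorem phi_phi {r : Fin n → Fin n → Prop} {k : ℕ} (hk : k + 1 < n)
    {σ : Equiv.Perm (Fin n)} (hσ : σ ∈ LX r) : phi r k hk (phi r k hk σ) = σ := by
  unfold phi
  by_cases h : inc r k hk σ
  · rw [if_pos h, if_pos (inc_trans_sw hk hσ)]
    ext x
    simp only [Equiv.trans_apply]
    unfold sw
    rw [Equiv.swap_apply_self]
  · rw [if_neg h, if_neg h]

theorem sum_phi {r : Fin n → Fin n → Prop} {k : ℕ} (hk : k + 1 < n)
    (g : Equiv.Perm (Fin n) → ℝ) : ∑ σ ∈ LX r, g (phi r k hk σ) = ∑ σ ∈ LX r, g σ :=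
  sum_nbij' (phi r k hk) (phi r k hk) (fun _ h => phi_mem hk h) (fun _ h => phi_mem hk h)
    (fun _ h => phi_phi hk h) (fun _ h => phi_phi hk h) (fun _ _ => rfl)

open Classical in
/-- number of linear extensions with a comparable adjacent pair (element of `I`, element
outside `I`) in positions `k`, `k + 1` -/
noncomputable def cmp (r : Fin n → Fin n → Prop) (I : Fin n → Prop) (k : ℕ)
    (hk : k + 1 < n) : ℝ :=
  ((LX r).filter (fun σ => I (σ.symm ⟨k, by omega⟩) ∧ ¬ I (σ.symm ⟨k + 1, hk⟩) ∧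
    ¬ inc r k hk σ)).card

theorem cmp_nonneg (r : Fin n → Fin n → Prop) (I : Fin n → Prop) (k : ℕ)
    (hk : k + 1 < n) : 0 ≤ cmp r I k hk := Nat.cast_nonneg _

theorem ty_phi_left {r : Fin n → Fin n → Prop} (I : Fin n → Prop) {k : ℕ} (hk : k + 1 < n)
    {σ : Equiv.Perm (Fin n)} (h : inc r k hk σ) : ty I (phi r k hk σ) k = ty I σ (k + 1) := by
  unfold ty phi
  rw [if_pos h, dif_pos hk, dif_pos (by omega : k < n), symm_trans_sw]
  unfold sw
  rw [Equiv.swap_apply_left]

theorem ty_phi_right {r : Fin n → Fin n → Prop} (I : Fin n → Prop) {k : ℕ} (hk : k + 1 < n)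
    {σ : Equiv.Perm (Fin n)} (h : inc r k hk σ) : ty I (phi r k hk σ) (k + 1) = ty I σ k := by
  unfold ty phi
  rw [if_pos h, dif_pos hk, dif_pos (by omega : k < n), symm_trans_sw]
  unfold sw
  rw [Equiv.swap_apply_right]

theorem ty_phi_of_ne {r : Fin n → Fin n → Prop} (I : Fin n → Prop) {k : ℕ} (hk : k + 1 < n)
    {σ : Equiv.Perm (Fin n)} (h : inc r k hk σ) {j : ℕ} (hj : j ≠ k) (hj' : j ≠ k + 1) :
    ty I (phi r k hk σ) j = ty I σ j := by
  unfold ty phi
  rw [if_pos h]
  by_cases hjn : j < n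
  · rw [dif_pos hjn, dif_pos hjn, symm_trans_sw]
    unfold sw
    rw [Equiv.swap_apply_of_ne_of_ne]
    · intro h'
      exact hj (by simpa using congrArg Fin.val h')
    · intro h'
      exact hj' (by simpa using congrArg Fin.val h')
  · rw [dif_neg hjn, dif_neg hjn]

open Classical in
/-- for a comparable adjacent pair the types are weakly decreasing -/
theorem ty_of_not_inc {r : Fin n → Fin n → Prop} {I : Fin n → Prop}
    (hI : ∀ a b, r a b → I b → I a) {k : ℕ} (hk : k + 1 < n)
    {σ : Equiv.Perm (Fin n)} (h : ¬ inc r k hk σ) :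
    ty I σ k - ty I σ (k + 1) =
      if I (σ.symm ⟨k, by omega⟩) ∧ ¬ I (σ.symm ⟨k + 1, hk⟩) ∧ ¬ inc r k hk σ then 1 else 0 := by
  have h1 : r (σ.symm ⟨k, by omega⟩) (σ.symm ⟨k + 1, hk⟩) := by
    unfold inc at h
    push Not at h
    exact h
  have h2 := hI _ _ h1
  unfold ty
  rw [dif_pos hk, dif_pos (by omega : k < n)]
  by_cases h3 : I (σ.symm ⟨k, by omega⟩)
  · by_cases h4 : I (σ.symm ⟨k + 1, hk⟩)
    · simp [h3, h4]
    · simp [h3, h4, h]
  · have h4 : ¬ I (σ.symm ⟨k + 1, hk⟩) := fun h' => h3 (h2 h')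
    simp [h3, h4]

/-- monotonicity of the probability that position `k` is occupied by an element of an ideal -/
theorem mono_step {r : Fin n → Fin n → Prop} {I : Fin n → Prop}
    (hI : ∀ a b, r a b → I b → I a) {k : ℕ} (hk : k + 1 < n) :
    ∑ σ ∈ LX r, ty I σ k = ∑ σ ∈ LX r, ty I σ (k + 1) + cmp r I k hk := by
  rw [← sum_phi hk (fun σ => ty I σ (k + 1))]
  unfold cmp
  rw [card_filter]
  push_cast
  rw [← sum_add_distrib]
  refine sum_congr rfl fun σ _ => ?_
  by_cases h : inc r k hk σ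
  · rw [ty_phi_right I hk h, if_neg (by tauto)]
    ring
  · have h1 := ty_of_not_inc hI hk h
    have h2 : phi r k hk σ = σ := by
      unfold phi
      rw [if_neg h]
    rw [h2]
    linarith

/-- the type word in a window -/
noncomputable def word (I : Fin n → Prop) (k0 L : ℕ) (σ : Equiv.Perm (Fin n)) (j : Fin L) : ℝ :=
  ty I σ (k0 + j)

theorem adj_step {r : Fin n → Fin n → Prop} {I : Fin n → Prop}
    (hI : ∀ a b, r a b → I b → I a) {l k0 : ℕ} (i : Fin l) (hk : k0 + i + 1 < n)
    (f : (Fin (l + 1) → ℝ) → ℝ) (B : ℝ) (hB : ∀ x, |f x| ≤ B) :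
    |∑ σ ∈ LX r, f (fun j => word I k0 (l + 1) σ (Equiv.swap i.castSucc i.succ j)) -
      ∑ σ ∈ LX r, f (word I k0 (l + 1) σ)| ≤ 2 * B * cmp r I (k0 + i) hk := by
  rw [← sum_phi hk (fun σ => f (word I k0 (l + 1) σ)), ← sum_sub_distrib]
  refine (abs_sum_le_sum_abs _ _).trans ?_
  unfold cmp
  rw [card_filter]
  push_cast
  rw [mul_sum]
  refine sum_le_sum fun σ _ => ?_
  by_cases h : inc r (k0 + i) hk σ
  · have : (fun j => word I k0 (l + 1) σ (Equiv.swap i.castSucc i.succ j)) =
        word I k0 (l + 1) (phi r (k0 + i) hk σ) := by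
      funext j
      unfold word
      by_cases h1 : j = i.castSucc
      · subst h1
        rw [Equiv.swap_apply_left]
        have := ty_phi_left I hk h
        simp only [Fin.val_castSucc, Fin.val_succ]
        rw [this]
        congr 1
      · by_cases h2 : j = i.succ
        · subst h2
          rw [Equiv.swap_apply_right]
          have := ty_phi_right I hk h
          simp only [Fin.val_castSucc, Fin.val_succ]
          rw [← this]
          congr 1
        · rw [Equiv.swap_apply_of_ne_of_ne h1 h2, ty_phi_of_ne I hk h]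
          · intro h'
            apply h1
            ext
            simp only [Fin.val_castSucc]
            omega
          · intro h'
            apply h2
            ext
            simp only [Fin.val_succ]
            omega
    rw [this, sub_self, abs_zero, if_neg (by tauto)]
    simp
  · have h2 : phi r (k0 + i) hk σ = σ := by
      unfold phi
      rw [if_neg h]
    have h1 := ty_of_not_inc hI hk h
    rw [h2]
    split_ifs at h1 ⊢ with h3
    · have e1 := hB (fun j => word I k0 (l + 1) σ (Equiv.swap i.castSucc i.succ j))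
      have e2 := hB (word I k0 (l + 1) σ)
      rw [mul_one]
      exact (abs_sub _ _).trans (by linarith)
    · have : (fun j => word I k0 (l + 1) σ (Equiv.swap i.castSucc i.succ j)) =
          word I k0 (l + 1) σ := by
        funext j
        unfold word
        by_cases h4 : j = i.castSucc
        · subst h4
          rw [Equiv.swap_apply_left]
          simp only [Fin.val_castSucc, Fin.val_succ]
          rw [← add_assoc]
          linarith
        · by_cases h5 : j = i.succ
          · subst h5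
            rw [Equiv.swap_apply_right]
            simp only [Fin.val_castSucc, Fin.val_succ]
            rw [← add_assoc]
            linarith
          · rw [Equiv.swap_apply_of_ne_of_ne h4 h5]
      rw [this, sub_self, abs_zero]
      simp

/-- approximate exchangeability of the type word -/
theorem approx_exch (l : ℕ) (τ : Equiv.Perm (Fin (l + 1))) : ∃ C : ℝ, 0 ≤ C ∧
    ∀ (n : ℕ) (r : Fin n → Fin n → Prop) (I : Fin n → Prop) (_ : ∀ a b, r a b → I b → I a)
      (k0 : ℕ) (hn : k0 + l + 1 ≤ n) (η : ℝ)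
      (_ : ∀ (i : ℕ) (hi : i < l), cmp r I (k0 + i) (by omega) ≤ η)
      (f : (Fin (l + 1) → ℝ) → ℝ) (B : ℝ) (_ : ∀ x, |f x| ≤ B),
      |∑ σ ∈ LX r, f (fun j => word I k0 (l + 1) σ (τ j)) -
        ∑ σ ∈ LX r, f (word I k0 (l + 1) σ)| ≤ C * B * η := by
  have hτ : τ ∈ Submonoid.closure (Set.range fun i : Fin l ↦ Equiv.swap i.castSucc i.succ) := by
    rw [Equiv.Perm.mclosure_swap_castSucc_succ]
    trivial
  induction hτ using Submonoid.closure_induction with
  | mem x hx =>
    obtain ⟨i, rfl⟩ := hx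
    refine ⟨2, by norm_num, ?_⟩
    intro n r I hI k0 hn η hη f B hB
    have h1 := adj_step hI (k0 := k0) i (by omega) f B hB
    have h2 := hη i i.2
    have hB0 : 0 ≤ B := (abs_nonneg _).trans (hB (fun _ => 0))
    refine h1.trans ?_
    exact mul_le_mul_of_nonneg_left h2 (by positivity)
  | one =>
    refine ⟨0, le_rfl, ?_⟩
    intro n r I hI k0 hn η hη f B hB
    simp
  | mul x y _ _ hx hy =>
    obtain ⟨C1, h1, h1'⟩ := hx
    obtain ⟨C2, h2, h2'⟩ := hy
    refine ⟨C1 + C2, by positivity, ?_⟩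
    intro n r I hI k0 hn η hη f B hB
    have e1 := h1' n r I hI k0 hn η hη (fun w => f (fun j => w (y j))) B (fun w => hB _)
    have e2 := h2' n r I hI k0 hn η hη f B hB
    have e3 : ∑ σ ∈ LX r, f (fun j => word I k0 (l + 1) σ ((x * y) j)) -
        ∑ σ ∈ LX r, f (word I k0 (l + 1) σ) =
        (∑ σ ∈ LX r, f (fun j => word I k0 (l + 1) σ (x (y j))) -
          ∑ σ ∈ LX r, f (fun j => word I k0 (l + 1) σ (y j))) +
        (∑ σ ∈ LX r, f (fun j => word I k0 (l + 1) σ (y j)) -
          ∑ σ ∈ LX r, f (word I k0 (l + 1) σ)) := by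
      simp only [Equiv.Perm.mul_apply]
      ring
    rw [e3]
    refine (abs_add_le _ _).trans ?_
    have : (C1 + C2) * B * η = C1 * B * η + C2 * B * η := by ring
    rw [this]
    exact add_le_add e1 e2

/-- uniform version -/
theorem approx_exch_all (l : ℕ) : ∃ C : ℝ, 0 ≤ C ∧ ∀ (τ : Equiv.Perm (Fin (l + 1)))
      (n : ℕ) (r : Fin n → Fin n → Prop) (I : Fin n → Prop) (_ : ∀ a b, r a b → I b → I a)
      (k0 : ℕ) (hn : k0 + l + 1 ≤ n) (η : ℝ)
      (_ : ∀ (i : ℕ) (hi : i < l), cmp r I (k0 + i) (by omega) ≤ η)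
      (f : (Fin (l + 1) → ℝ) → ℝ) (B : ℝ) (_ : ∀ x, |f x| ≤ B),
      |∑ σ ∈ LX r, f (fun j => word I k0 (l + 1) σ (τ j)) -
        ∑ σ ∈ LX r, f (word I k0 (l + 1) σ)| ≤ C * B * |η| := by
  choose C hC using approx_exch l
  refine ⟨∑ τ, C τ, sum_nonneg fun τ _ => (hC τ).1, ?_⟩
  intro τ n r I hI k0 hn η hη f B hB
  have hB0 : 0 ≤ B := (abs_nonneg _).trans (hB (fun _ => 0))
  refine ((hC τ).2 n r I hI k0 hn η hη f B hB).trans ?_
  have h1 : C τ ≤ ∑ τ, C τ := single_le_sum (fun i _ => (hC i).1) (mem_univ τ)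
  calc C τ * B * η ≤ C τ * B * |η| :=
        mul_le_mul_of_nonneg_left (le_abs_self η) (mul_nonneg (hC τ).1 hB0)
    _ ≤ (∑ τ, C τ) * B * |η| := by gcongr

end Pool.Agent.Helper60.KS
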